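import Pool.Agent.ETC.QSat

/-!
The saturation theorem for finite quaternionic structures (the quaternions only form a set).
-/

set_option linter.unusedSectionVars false

namespace ETC

open Finset
open Pool.Agent.Helper58.PLine (QData)

variable {V Q : Type} [AddCommGroup V] [Module (ZMod 2) V] {S : QData V Q}

variable (S) in
/-- `α` is given by an element of `V` on every pair `x, x'` and their sum -/
def Pairwise2 (α : V → Q) : Prop :=
  ∀ x x', ∃ v, α x = S.q x v ∧ α x' = S.q x' v ∧ α (x + x') = S.q (x + x') v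

/-- the family attached to a choice `s` -/
def ws (s : V → V) (x : V) : (V × ZMod 2) →ₗ[ZMod 2] V :=
  LinearMap.fst (ZMod 2) V (ZMod 2) +
    (LinearMap.toSpanSingleton (ZMod 2) V (s x)).comp (LinearMap.snd (ZMod 2) V (ZMod 2))

theorem ws_zero (s : V → V) (x y : V) : ws s x (y, 0) = y := by simp [ws]

theorem ws_one (s : V → V) (x y : V) : ws s x (y, 1) = y + s x := by simp [ws]

section
variable {α : V → Q} {s : V → V}

theorem gg_ws_zero (y x : V) : gg S (ws s) (y, 0) x = S.q x y := by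
  unfold gg; rw [ws_zero]

theorem gg_ws_one (hs : ∀ x, α x = S.q x (s x)) {x v : V} (h : α x = S.q x v) (y : V) :
    gg S (ws s) (y, 1) x = S.q x (y + v) := by
  unfold gg
  rw [ws_one, S.eq_iff, add_add_add_comm, ZModModule.add_self, zero_add]
  rw [← S.eq_iff, ← hs, h]

theorem ws_fam (hα : Pairwise2 S α) (hs : ∀ x, α x = S.q x (s x)) : Fam S (ws s) := by
  constructor
  intro x x'
  obtain ⟨v, h1, h2, h3⟩ := hα x x'
  refine ⟨LinearMap.fst (ZMod 2) V (ZMod 2) +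
    (LinearMap.toSpanSingleton (ZMod 2) V v).comp (LinearMap.snd (ZMod 2) V (ZMod 2)), ?_⟩
  rintro ⟨y, ε⟩
  rcases zm ε with rfl | rfl
  · simp [ws]
  · have e1 := gg_ws_one hs h1 y
    have e2 := gg_ws_one hs h2 y
    have e3 := gg_ws_one hs h3 y
    unfold gg at e1 e2 e3
    rw [e1, e2, e3]
    simp

theorem LkQ_zero_zero (y y' : V) : LkQ S (ws s) (y, 0) (y', 0) := by
  intro x x' h
  rw [gg_ws_zero, gg_ws_zero] at h
  obtain ⟨t, h1, h2⟩ := S.link y x y' x' (by rw [S.symm y, S.symm y', h])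
  refine ⟨t, ?_, ?_⟩
  · rw [gg_ws_zero, gg_ws_zero, S.symm t, ← h1, S.symm]
  · rw [gg_ws_zero, gg_ws_zero, S.symm t, ← h2, S.symm, h]

variable [Fintype V]

theorem sum_AAZZ (hα : Pairwise2 S α) (hs : ∀ x, α x = S.q x (s x)) :
    ∑ a : V × V, AA S (ws s) (a.1, 1) (a.2, 1) * ZZ S (ws s) (a.1, 1) (a.2, 1) =
      ∑ a : V × V, AA S (ws s) (a.1, 0) (a.2, 0) * ZZ S (ws s) (a.1, 0) (a.2, 0) := by
  have key : ∀ ε : ZMod 2,
      ∑ a : V × V, AA S (ws s) (a.1, ε) (a.2, ε) * ZZ S (ws s) (a.1, ε) (a.2, ε) =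
      ∑ b : V × V × V, ∑ a : V × V, ind (gg S (ws s) (a.1, ε) b.1 = gg S (ws s) (a.2, ε) b.2.1 ∧
        gg S (ws s) (a.1, ε) b.2.2 = S.z ∧ gg S (ws s) (a.2, ε) b.2.2 = S.z) := by
    intro ε
    rw [Finset.sum_comm]
    apply Finset.sum_congr rfl
    intro a _
    unfold AA ZZ
    rw [Finset.sum_mul, Fintype.sum_prod_type]
    apply Finset.sum_congr rfl
    intro x _
    rw [Finset.sum_mul_sum, Fintype.sum_prod_type]
    simp only [ind_and]
  rw [key 1, key 0]
  apply Finset.sum_congr rfl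
  rintro ⟨x, x', x''⟩ _
  obtain ⟨y0, a1, a2, -⟩ := hα x'' (x + x')
  obtain ⟨v0, b1, b2, b3⟩ := hα x x'
  apply sum_ind_shift _ _ (y0, y0)
  rintro ⟨y, y'⟩
  simp only [Prod.mk_add_mk, gg_ws_zero]
  rw [gg_ws_one hs a1, gg_ws_one hs a1, gg_ws_one hs b1, gg_ws_one hs b2,
    add_add_self', add_add_self']
  have hw : S.q x (y0 + v0) = S.q x' (y0 + v0) := by
    rw [S.eq_iff', ← S.eq_iff, ← b3, a2]
  have e : S.q x (y + y0 + v0) = S.q x' (y' + y0 + v0) ↔ S.q x y = S.q x' y' := by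
    rw [add_assoc, add_assoc]
    constructor
    · intro h
      have := add_common h hw
      rwa [add_add_self', add_add_self'] at this
    · intro h
      exact add_common h hw
  rw [e]

theorem sum_ccc (hα : Pairwise2 S α) (hs : ∀ x, α x = S.q x (s x)) :
    ∑ a : V × V, cc S (ws s) (a.1, 1) * cc S (ws s) (a.2, 1) * cc S (ws s) (a.1 + a.2, 0) =
      ∑ a : V × V, cc S (ws s) (a.1, 0) * cc S (ws s) (a.2, 0) *
        cc S (ws s) (a.1 + a.2, 0) := by
  have key : ∀ ε : ZMod 2,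
      ∑ a : V × V, cc S (ws s) (a.1, ε) * cc S (ws s) (a.2, ε) * cc S (ws s) (a.1 + a.2, 0) =
      ∑ b : V × V × V, ∑ a : V × V, ind (gg S (ws s) (a.1, ε) b.1 = S.z ∧
        gg S (ws s) (a.2, ε) b.2.1 = S.z ∧ gg S (ws s) (a.1 + a.2, 0) b.2.2 = S.z) := by
    intro ε
    rw [Finset.sum_comm]
    apply Finset.sum_congr rfl
    intro a _
    unfold cc
    rw [mul_assoc, Finset.sum_mul, Fintype.sum_prod_type]
    apply Finset.sum_congr rfl
    intro x _
    rw [Finset.sum_mul_sum, Finset.mul_sum, Fintype.sum_prod_type]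
    apply Finset.sum_congr rfl
    intro x' _
    rw [Finset.mul_sum]
    simp only [ind_and]
  rw [key 1, key 0]
  apply Finset.sum_congr rfl
  rintro ⟨x, x', x''⟩ _
  obtain ⟨y0, a1, a2, -⟩ := hα x x'
  apply sum_ind_shift _ _ (y0, y0)
  rintro ⟨y, y'⟩
  simp only [Prod.mk_add_mk, gg_ws_zero]
  rw [gg_ws_one hs a1, gg_ws_one hs a2, add_add_self', add_add_self', add_add_add_comm,
    ZModModule.add_self, add_zero]

theorem LkQ_one_one (hα : Pairwise2 S α) (hs : ∀ x, α x = S.q x (s x)) (y y' : V) :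
    LkQ S (ws s) (y, 1) (y', 1) := by
  have hw := ws_fam hα hs
  have hz : (1 : ZMod 2) + 1 = 0 := by decide
  have hsum : ∑ a : V × V, cc S (ws s) (a.1, 1) * cc S (ws s) (a.2, 1) *
        cc S (ws s) ((a.1, 1) + (a.2, 1)) =
      ∑ a : V × V, AA S (ws s) (a.1, 1) (a.2, 1) * ZZ S (ws s) (a.1, 1) (a.2, 1) := by
    rw [sum_AAZZ hα hs]
    simp only [Prod.mk_add_mk, hz]
    rw [sum_ccc hα hs]
    apply Finset.sum_congr rfl
    intro a _
    rw [← (ccc_eq_iff hw (a.1, 0) (a.2, 0)).2 (LkQ_zero_zero a.1 a.2), Prod.mk_add_mk, add_zero]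
  have h1 := (Finset.sum_eq_sum_iff_of_le (s := Finset.univ)
    (f := fun a : V × V => cc S (ws s) (a.1, 1) * cc S (ws s) (a.2, 1) *
        cc S (ws s) ((a.1, 1) + (a.2, 1)))
    (g := fun a : V × V => AA S (ws s) (a.1, 1) (a.2, 1) * ZZ S (ws s) (a.1, 1) (a.2, 1))
    (fun a _ => ccc_le hw _ _)).1 hsum (y, y') (Finset.mem_univ _)
  exact (ccc_eq_iff hw _ _).1 h1

theorem LkQ_one_zero (hα : Pairwise2 S α) (hs : ∀ x, α x = S.q x (s x)) (y y' : V) :
    LkQ S (ws s) (y, 1) (y', 0) := by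
  intro x1 x2 h
  have hw := ws_fam hα hs
  obtain ⟨v0, b1, b2, b3⟩ := hα x1 x2
  rw [gg_ws_zero, gg_ws_one hs b1] at h
  have h1 : gg S (ws s) (y, 1) (x1 + x2) = gg S (ws s) (y + y', 1) x2 := by
    rw [gg_ws_one hs b3, gg_ws_one hs b2, S.symm (x1 + x2)]
    have e1 : S.q (y + v0) x1 = S.q x2 y' := by rw [S.symm, h]
    have e2 : S.q (y + v0) x2 = S.q x2 (y + v0) := S.symm _ _
    have := add_common e1 e2
    rw [this]
    congr 1
    abel
  obtain ⟨t, ht1, ht2⟩ := LkQ_one_one hα hs y (y + y') _ _ h1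
  have h3 : gg S (ws s) (y', 0) t = S.z := by
    have : ((y', 0) : V × ZMod 2) = (y, 1) + (y + y', 1) := by
      rw [Prod.mk_add_mk, add_add_self]
      congr 1
    rw [this, gg_add, ht1, ht2]
  refine ⟨x2 + t, ?_, ?_⟩
  · rw [hw.eq_iff, show x2 + t + x1 = x1 + x2 + t by abel, ← hw.eq_iff, ht1]
  · have e1 : gg S (ws s) (y', 0) (x2 + t) = gg S (ws s) (y', 0) x2 := by
      rw [hw.eq_iff, show x2 + t + x2 = t + (x2 + x2) by abel, ZModModule.add_self, add_zero, h3]
    rw [e1, gg_ws_zero, gg_ws_one hs b1, h]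

theorem LkQ_all (hα : Pairwise2 S α) (hs : ∀ x, α x = S.q x (s x)) (η η' : V × ZMod 2) :
    LkQ S (ws s) η η' := by
  obtain ⟨y, ε⟩ := η
  obtain ⟨y', ε'⟩ := η'
  rcases zm ε with rfl | rfl <;> rcases zm ε' with rfl | rfl
  · exact LkQ_zero_zero y y'
  · intro x x' h
    obtain ⟨t, h1, h2⟩ := LkQ_one_zero hα hs y' y x' x h.symm
    exact ⟨t, by rw [h2, h], by rw [h1, h]⟩
  · exact LkQ_one_zero hα hs y y'
  · exact LkQ_one_one hα hs y y'

end

/-- **Saturation theorem.** In a finite quaternionic structure, a map `α` from the group to the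
set of quaternions that is given by an element on every pair and its sum is given by an
element. -/
theorem saturation [Finite V] {α : V → Q} (hα : Pairwise2 S α) : ∃ p, ∀ x, α x = S.q x p := by
  classical
  have := Fintype.ofFinite V
  have hs0 : ∀ x, ∃ v, α x = S.q x v := fun x => by
    obtain ⟨v, h, -, -⟩ := hα x x
    exact ⟨v, h⟩
  choose s hs using hs0
  have hw := ws_fam hα hs
  have hL := LkQ_all hα hs
  let G : Submodule (ZMod 2) (D (V × ZMod 2)) :=
    { carrier := {χ | ∃ x, ∀ η ∈ Vx S (ws s) x, χ η = 0}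
      add_mem' := fun h₁ h₂ => closureQ hw hL h₁ h₂
      zero_mem' := ⟨0, fun η _ => rfl⟩
      smul_mem' := by
        rintro a χ ⟨x, h⟩
        exact ⟨x, fun η hη => by rw [LinearMap.smul_apply, h η hη, smul_zero]⟩ }
  have hmem : ∀ x, ((s x, 1) : V × ZMod 2) ∈ Vx S (ws s) x := by
    intro x
    rw [mem_Vx]
    unfold gg
    rw [ws_one, ZModModule.add_self, S.q_zero]
  have hτ : LinearMap.snd (ZMod 2) V (ZMod 2) ∉ G := by
    rintro ⟨x, h⟩
    exact one_ne_zero (h _ (hmem x))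
  obtain ⟨F, hF1, hF2⟩ := exists_dual_sep hτ
  obtain ⟨z, rfl⟩ := (Module.evalEquiv (ZMod 2) (V × ZMod 2)).surjective F
  obtain ⟨y0, ε⟩ := z
  have h1 : ε = 1 := by simpa using hF1
  subst h1
  refine ⟨y0, fun x => ?_⟩
  have h2 : ((y0, 1) : V × ZMod 2) ∈ Vx S (ws s) x := by
    by_contra hne
    obtain ⟨χ, hχ1, hχ2⟩ := exists_dual_sep hne
    have h3 := hF2 χ ⟨x, hχ2⟩
    rw [Module.evalEquiv_apply, Module.Dual.eval_apply, hχ1] at h3
    exact one_ne_zero h3
  rw [mem_Vx] at h2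
  unfold gg at h2
  rw [ws_one, ← S.add] at h2
  rw [hs, h2]

end ETC
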