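import Pool.Agent.ETC.Witt3

/-!
The Pfister quotient `S^x` of a quaternionic structure.
-/

set_option linter.unusedSectionVars false

namespace ETC

open Pool.Agent.Helper58.PLine (QData)

variable {V Q : Type} [AddCommGroup V] [Module (ZMod 2) V]

/-- the three-fold symbol as an element of the Witt ring -/
noncomputable def tri (S : QData V Q) (x y z : V) : WR S :=
  (1 - ph S x) * (1 - ph S y) * (1 - ph S z)

variable {S : QData V Q}

theorem tri_swap23 (x y z : V) : tri S x y z = tri S x z y := by unfold tri; ring

theorem tri_swap12 (x y z : V) : tri S x y z = tri S y x z := by unfold tri; ring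

theorem tri_add {x y z z' : V} : tri S x y z = tri S x y z' ↔ tri S x y (z + z') = 0 := by
  unfold tri
  have g := ph_self (S := S) z
  have g' := ph_self (S := S) z'
  rw [ph_add]
  constructor
  · intro h
    linear_combination (ph S z') * h - ((1 - ph S x) * (1 - ph S y)) * g'
  · intro h
    linear_combination (ph S z') * h + ((1 - ph S x) * (1 - ph S y) * ph S z) * g'

theorem tri_zero_right (x y : V) : tri S x y 0 = 0 := by
  unfold tri; rw [ph_zero]; ring

theorem tri_e (x y : V) : tri S x y (y + S.e) = 0 := by
  unfold tri
  have g := ph_self (S := S) y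
  rw [ph_add, ph_e]
  linear_combination -(1 - ph S x) * g

/-- independence of representatives -/
theorem tri_congr {x y y' z z' : V} (h1 : y + y' ∈ S.ann x) (h2 : z + z' ∈ S.ann x) :
    tri S x y z = tri S x y' z' := by
  have f1 := one_sub_mul (S := S) (x := x) (u := y + y') h1
  have f2 := one_sub_mul (S := S) (x := x) (u := z + z') h2
  rw [ph_add] at f1 f2
  have g1 := ph_self (S := S) y'
  have g2 := ph_self (S := S) z'
  have k1 : (1 - ph S x) * ph S y = (1 - ph S x) * ph S y' := by
    linear_combination (ph S y') * f1 - ((1 - ph S x) * ph S y) * g1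
  have k2 : (1 - ph S x) * ph S z = (1 - ph S x) * ph S z' := by
    linear_combination (ph S z') * f2 - ((1 - ph S x) * ph S z) * g2
  unfold tri
  linear_combination (-(1 - ph S z)) * k1 - (1 - ph S y') * k2

/-- the Pfister quotient -/
noncomputable def pq (S : QData V Q) (x : V) : QData (V ⧸ S.ann x) (WR S) where
  q := fun y z => tri S x (Quotient.out y) (Quotient.out z)
  z := 0
  e := Submodule.Quotient.mk S.e
  symm := fun y z => tri_swap23 _ _ _
  add := by
    intro y z z'
    rw [tri_add]
    have : tri S x (Quotient.out y) (Quotient.out z + Quotient.out z') =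
        tri S x (Quotient.out y) (Quotient.out (z + z')) := by
      apply tri_congr
      · rw [ZModModule.add_self]; exact zero_mem _
      · rw [← Submodule.Quotient.mk_eq_zero]
        rw [Submodule.Quotient.mk_add, Submodule.Quotient.mk_add]
        have e : ∀ w : V ⧸ S.ann x, Submodule.Quotient.mk (Quotient.out w) = w :=
          fun w => Quotient.out_eq w
        rw [e, e, e, ZModModule.add_self]
    rw [this]
  diag := by
    intro y
    have : tri S x (Quotient.out y) (Quotient.out (y + Submodule.Quotient.mk S.e)) =
        tri S x (Quotient.out y) (Quotient.out y + S.e) := by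
      apply tri_congr
      · rw [ZModModule.add_self]; exact zero_mem _
      · rw [← Submodule.Quotient.mk_eq_zero]
        rw [Submodule.Quotient.mk_add, Submodule.Quotient.mk_add]
        have e : ∀ w : V ⧸ S.ann x, Submodule.Quotient.mk (Quotient.out w) = w :=
          fun w => Quotient.out_eq w
        rw [e, e, ZModModule.add_self]
    rw [this, tri_e]
  link := by
    intro a b c d h
    obtain ⟨t, h1, h2⟩ := pfister_link h
    refine ⟨Submodule.Quotient.mk t, ?_, ?_⟩
    · rw [h]
      have : tri S x (Quotient.out a) (Quotient.out (Submodule.Quotient.mk t : V ⧸ S.ann x)) =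
          tri S x (Quotient.out a) t := by
        apply tri_congr
        · rw [ZModModule.add_self]; exact zero_mem _
        · rw [← Submodule.Quotient.mk_eq_zero, Submodule.Quotient.mk_add]
          have e : ∀ w : V ⧸ S.ann x, Submodule.Quotient.mk (Quotient.out w) = w :=
            fun w => Quotient.out_eq w
          rw [e, ZModModule.add_self]
      rw [this, ← h]
      exact h1
    · have : tri S x (Quotient.out c) (Quotient.out (Submodule.Quotient.mk t : V ⧸ S.ann x)) =
          tri S x (Quotient.out c) t := by
        apply tri_congr
        · rw [ZModModule.add_self]; exact zero_mem _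
        · rw [← Submodule.Quotient.mk_eq_zero, Submodule.Quotient.mk_add]
          have e : ∀ w : V ⧸ S.ann x, Submodule.Quotient.mk (Quotient.out w) = w :=
            fun w => Quotient.out_eq w
          rw [e, ZModModule.add_self]
      rw [this]
      exact h2

theorem pq_mk (x y z : V) : (pq S x).q (Submodule.Quotient.mk y) (Submodule.Quotient.mk z) =
    tri S x y z := by
  have e : ∀ w : V ⧸ S.ann x, Submodule.Quotient.mk (Quotient.out w) = w :=
    fun w => Quotient.out_eq w
  apply tri_congr
  · rw [← Submodule.Quotient.mk_eq_zero, Submodule.Quotient.mk_add, e, ZModModule.add_self]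
  · rw [← Submodule.Quotient.mk_eq_zero, Submodule.Quotient.mk_add, e, ZModModule.add_self]

@[simp] theorem pq_z (x : V) : (pq S x).z = 0 := rfl

/-- `M_α` for `α = q (x, y)`: all `z` with `{x, y, z} = 0` -/
def MM (S : QData V Q) (x y : V) : Submodule (ZMod 2) V where
  carrier := {z | tri S x y z = 0}
  add_mem' := by
    intro z z' h h'
    rw [Set.mem_ofPred_eq, ← tri_add]
    rw [Set.mem_ofPred_eq] at h h'
    rw [h, h']
  zero_mem' := tri_zero_right x y
  smul_mem' := by
    intro a z h
    rcases zm a with rfl | rfl
    · rw [zero_smul]; exact tri_zero_right x y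
    · rw [one_smul]; exact h

theorem mem_MM {x y z : V} : z ∈ MM S x y ↔ tri S x y z = 0 := Iff.rfl

theorem MM_congr {x y x' y' : V} (h : S.q x y = S.q x' y') : MM S x y = MM S x' y' := by
  ext z
  rw [mem_MM, mem_MM]
  unfold tri
  rw [prod_of_q_eq h]

theorem ann_le_MM (x y : V) : S.ann x ≤ MM S x y := by
  intro z hz
  rw [mem_MM]
  unfold tri
  have := q_eq_zero_iff.1 (show S.q x z = S.z from hz)
  linear_combination (1 - ph S y) * this

end ETC
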