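import Pool.Agent.ETC.Closure

/-!
Saturation: in a bilinear map `q : X × Y → B` (finite, over `ZMod 2`) which is linked on both
sides, every linear map `α : X → B` with `α x ∈ q (x, Y)` for all `x` is `α = q (·, y)` for some
`y`.
-/

set_option linter.unusedSectionVars false

namespace ETC

open Finset

variable {X Y B : Type} [AddCommGroup X] [Module (ZMod 2) X] [AddCommGroup Y] [Module (ZMod 2) Y]
  [AddCommGroup B] [Module (ZMod 2) B]

/-- two simultaneous equations -/
theorem solve2 {q : X →ₗ[ZMod 2] Y →ₗ[ZMod 2] B} {u w : X} (hq : Lk (q u) (q w)) {a b : B}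
    (h1 : ∃ y, q u y = a) (h2 : ∃ y, q w y = b) (h3 : ∃ y, q (u + w) y = a + b) :
    ∃ y, q u y = a ∧ q w y = b := by
  obtain ⟨y1, h1⟩ := h1
  obtain ⟨y2, h2⟩ := h2
  obtain ⟨y3, h3⟩ := h3
  rw [map_add, LinearMap.add_apply] at h3
  have e : q u (y1 + y3) = q w (y2 + y3) := by
    rw [map_add, map_add, h1, h2]
    have : q u y3 = a + b + q w y3 := by rw [← h3, add_add_self']
    rw [this, ← add_assoc, ← add_assoc, ZModModule.add_self, zero_add]
  obtain ⟨t, ht1, ht2⟩ := hq _ _ e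
  refine ⟨y3 + t, ?_, ?_⟩
  · rw [map_add, ht1, map_add, h1, add_comm a, ← add_assoc, ZModModule.add_self, zero_add]
  · rw [map_add, ht2, e, map_add, h2, add_comm b, ← add_assoc, ZModModule.add_self, zero_add]

section sat

variable (q : X →ₗ[ZMod 2] Y →ₗ[ZMod 2] B) (α : X →ₗ[ZMod 2] B)

/-- the map `x ↦ α x + q x y` -/
def Mm (y : Y) : X →ₗ[ZMod 2] B := α + q.flip y

@[simp] theorem Mm_apply (y : Y) (x : X) : Mm q α y x = α x + q x y := rfl

theorem Mm_add (y y' : Y) : Mm q α y + Mm q α y' = q.flip (y + y') := by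
  ext x
  simp only [LinearMap.add_apply, Mm_apply, LinearMap.flip_apply, map_add]
  rw [add_add_add_comm, ZModModule.add_self, zero_add]

variable {q α}

theorem solveA (hq : Linked q) (hα : ∀ x, ∃ y, q x y = α x) (x x' : X) :
    ∃ y, q x y = α x ∧ q x' y = α x' :=
  solve2 (hq x x') (hα x) (hα x') (by rw [← map_add α]; exact hα _)

theorem sum_two [Fintype X] [Fintype Y] (hq : Linked q) (hα : ∀ x, ∃ y, q x y = α x) :
    ∑ y : Y, c (Mm q α y) * c (Mm q α y) = ∑ y : Y, c (q.flip y) * c (q.flip y) := by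
  have h1 : ∀ y : Y, c (Mm q α y) * c (Mm q α y) =
      ∑ x : X, ∑ x' : X, ind (Mm q α y x = 0 ∧ Mm q α y x' = 0) := by
    intro y
    rw [c, Finset.sum_mul_sum]
    simp only [ind_and]
  have h2 : ∀ y : Y, c (q.flip y) * c (q.flip y) =
      ∑ x : X, ∑ x' : X, ind (q.flip y x = 0 ∧ q.flip y x' = 0) := by
    intro y
    rw [c, Finset.sum_mul_sum]
    simp only [ind_and]
  rw [Finset.sum_congr rfl fun y _ => h1 y, Finset.sum_congr rfl fun y _ => h2 y,
    Finset.sum_comm, Finset.sum_comm (f := fun (y : Y) (x : X) => ∑ x' : X,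
      ind (q.flip y x = 0 ∧ q.flip y x' = 0))]
  apply Finset.sum_congr rfl
  intro x _
  rw [Finset.sum_comm, Finset.sum_comm (f := fun (y : Y) (x' : X) =>
      ind (q.flip y x = 0 ∧ q.flip y x' = 0))]
  apply Finset.sum_congr rfl
  intro x' _
  obtain ⟨y0, a1, a2⟩ := solveA hq hα x x'
  apply sum_ind_shift _ _ y0
  intro y
  simp only [Mm_apply, map_add, a1, a2, LinearMap.flip_apply]
  rw [add_comm (q x y), ← add_assoc, ZModModule.add_self, zero_add, add_comm (q x' y),
    ← add_assoc, ZModModule.add_self, zero_add]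

theorem sum_three [Fintype X] [Fintype Y] (hq : Linked q) (hα : ∀ x, ∃ y, q x y = α x) :
    ∑ y : Y, ∑ y' : Y, c (Mm q α y) * c (Mm q α y') * c (q.flip (y + y')) =
      ∑ y : Y, ∑ y' : Y, c (q.flip y) * c (q.flip y') * c (q.flip (y + y')) := by
  have key : ∀ (G : Y → X →ₗ[ZMod 2] B),
      ∑ y : Y, ∑ y' : Y, c (G y) * c (G y') * c (q.flip (y + y')) =
      ∑ a : X × X × X, ∑ b : Y × Y,
        ind (G b.1 a.1 = 0 ∧ G b.2 a.2.1 = 0 ∧ q.flip (b.1 + b.2) a.2.2 = 0) := by
    intro G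
    rw [← Fintype.sum_prod_type', Finset.sum_comm]
    apply Finset.sum_congr rfl
    intro b _
    unfold c
    rw [Fintype.sum_prod_type, mul_assoc, Finset.sum_mul]
    apply Finset.sum_congr rfl
    intro x _
    rw [Fintype.sum_prod_type, Finset.sum_mul_sum, Finset.mul_sum]
    apply Finset.sum_congr rfl
    intro x' _
    rw [Finset.mul_sum]
    apply Finset.sum_congr rfl
    intro x'' _
    rw [ind_and, ind_and]
  rw [key (Mm q α), key (fun y => q.flip y)]
  apply Finset.sum_congr rfl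
  rintro ⟨x, x', x''⟩ _
  obtain ⟨y0, a1, a2⟩ := solveA hq hα x x'
  apply sum_ind_shift _ _ (y0, y0)
  rintro ⟨y, y'⟩
  simp only [Mm_apply, map_add, a1, a2, LinearMap.flip_apply, Prod.fst_add, Prod.snd_add]
  rw [add_comm (q x y), ← add_assoc, ZModModule.add_self, zero_add, add_comm (q x' y'),
    ← add_assoc, ZModModule.add_self, zero_add, add_add_add_comm, ZModModule.add_self, add_zero]

/-- number of `y` with `κ M_y = 0` and `M_y x = 0` -/
noncomputable def Zn [Fintype Y] (G : Y → X →ₗ[ZMod 2] B) (κ : D B) (x : X) : ℤ :=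
  ∑ y : Y, ind (κ ∘ₗ G y = 0 ∧ G y x = 0)

theorem sum_Zn [Fintype X] [Fintype Y] [Fintype B] (G : Y → X →ₗ[ZMod 2] B) :
    Fintype.card X * ∑ κ : D B, ∑ x : X, Zn G κ x = Fintype.card B * ∑ y : Y, c (G y) * c (G y) := by
  have h1 : ∑ κ : D B, ∑ x : X, Zn G κ x =
      ∑ y : Y, (∑ κ : D B, ind (κ ∘ₗ G y = 0)) * c (G y) := by
    unfold Zn
    have : ∀ κ : D B, ∑ x : X, ∑ y : Y, ind (κ ∘ₗ G y = 0 ∧ G y x = 0) =
        ∑ y : Y, ∑ x : X, ind (κ ∘ₗ G y = 0 ∧ G y x = 0) := fun κ => Finset.sum_comm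
    rw [Finset.sum_congr rfl fun κ _ => this κ, Finset.sum_comm]
    apply Finset.sum_congr rfl
    intro y _
    rw [c, Finset.sum_mul_sum]
    simp only [ind_and]
  rw [h1, Finset.mul_sum, Finset.mul_sum]
  apply Finset.sum_congr rfl
  intro y _
  have := dual_count (G y)
  linear_combination (c (G y)) * this

theorem sum_Zn_sq [Fintype X] [Fintype Y] [Fintype B] (G : Y → X →ₗ[ZMod 2] B) :
    ∑ κ : D B, ∑ x : X, Zn G κ x * Zn G κ x =
      ∑ y : Y, ∑ y' : Y, K2 (G y) (G y') * Z2 (G y) (G y') := by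
  rw [← Fintype.sum_prod_type', ← Fintype.sum_prod_type']
  have h1 : ∀ a : D B × X, Zn G a.1 a.2 * Zn G a.1 a.2 = ∑ b : Y × Y,
      ind (a.1 ∘ₗ G b.1 = 0 ∧ a.1 ∘ₗ G b.2 = 0) * ind (G b.1 a.2 = 0 ∧ G b.2 a.2 = 0) := by
    rintro ⟨κ, x⟩
    rw [Zn, Finset.sum_mul_sum, Fintype.sum_prod_type]
    apply Finset.sum_congr rfl
    intro y _
    apply Finset.sum_congr rfl
    intro y' _
    simp only [ind_and]
    ring
  rw [Finset.sum_congr rfl fun a _ => h1 a, Finset.sum_comm]
  apply Finset.sum_congr rfl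
  intro b _
  rw [K2, Z2, Finset.sum_mul_sum, Fintype.sum_prod_type]

theorem Zn_le [Fintype Y] (κ : D B) (x : X) :
    Zn (Mm q α) κ x ≤ Zn (fun y => q.flip y) κ x := by
  by_cases h : ∃ y0, κ ∘ₗ Mm q α y0 = 0 ∧ Mm q α y0 x = 0
  · obtain ⟨y0, h1, h2⟩ := h
    apply le_of_eq
    apply sum_ind_shift _ _ y0
    intro y
    have e : Mm q α (y + y0) = q.flip y + Mm q α y0 := by
      ext x
      simp only [Mm_apply, LinearMap.add_apply, LinearMap.flip_apply, map_add]
      abel
    rw [e, LinearMap.comp_add, h1, add_zero, LinearMap.add_apply, h2, add_zero]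
  · have : Zn (Mm q α) κ x = 0 := by
      apply Finset.sum_eq_zero
      intro y _
      exact ind_false fun hy => h ⟨y, hy⟩
    rw [this]
    exact Finset.sum_nonneg fun _ _ => ind_nonneg _

theorem Zn_pos [Fintype Y] (κ : D B) (x : X) : 0 < Zn (fun y => q.flip y) κ x := by
  apply Finset.sum_pos' (fun v _ => ind_nonneg _)
  exact ⟨0, Finset.mem_univ _, by simp [ind]⟩

theorem Zn_eq [Fintype X] [Fintype Y] [Fintype B] (hq : Linked q)
    (hα : ∀ x, ∃ y, q x y = α x) (κ : D B) (x : X) :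
    Zn (Mm q α) κ x = Zn (fun y => q.flip y) κ x := by
  have h1 : ∑ κ : D B, ∑ x : X, Zn (Mm q α) κ x =
      ∑ κ : D B, ∑ x : X, Zn (fun y => q.flip y) κ x := by
    have e1 := sum_Zn (Mm q α)
    have e2 := sum_Zn (fun y => q.flip y)
    rw [sum_two hq hα, ← e2] at e1
    exact mul_left_cancel₀ (card_pos' (V := X)).ne' e1
  have h2 := (Finset.sum_eq_sum_iff_of_le (s := Finset.univ) (f := fun κ : D B => ∑ x : X,
      Zn (Mm q α) κ x) (g := fun κ : D B => ∑ x : X, Zn (fun y => q.flip y) κ x)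
      (fun κ _ => Finset.sum_le_sum fun x _ => Zn_le κ x)).1 h1 κ (Finset.mem_univ _)
  exact (Finset.sum_eq_sum_iff_of_le (s := Finset.univ) (f := fun x : X => Zn (Mm q α) κ x)
      (g := fun x : X => Zn (fun y => q.flip y) κ x)
      (fun x _ => Zn_le κ x)).1 h2 x (Finset.mem_univ _)

/-- **S1.** -/
theorem saturation_one [Finite X] [Finite Y] [Finite B] (hq : Linked q)
    (hα : ∀ x, ∃ y, q x y = α x) (κ : D B) (x : X) :
    ∃ y, (∀ x', κ (α x') = κ (q x' y)) ∧ α x = q x y := by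
  classical
  have := Fintype.ofFinite X
  have := Fintype.ofFinite Y
  have := Fintype.ofFinite B
  have h := Zn_eq hq hα κ x
  by_contra hc
  have h0 : Zn (Mm q α) κ x = 0 := by
    apply Finset.sum_eq_zero
    intro y _
    apply ind_false
    rintro ⟨h1, h2⟩
    apply hc
    refine ⟨y, fun x' => ?_, ?_⟩
    · have := LinearMap.congr_fun h1 x'
      simp only [LinearMap.comp_apply, Mm_apply, map_add, LinearMap.zero_apply] at this
      exact eq_of_add_eq_zero this
    · exact eq_of_add_eq_zero h2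
  have h1 := Zn_pos (q := q) κ x
  omega

theorem Mm_linked [Finite X] [Finite Y] [Finite B] (hq : Linked q) (hq' : Linked q.flip)
    (hα : ∀ x, ∃ y, q x y = α x) (y y' : Y) : Lk (Mm q α y) (Mm q α y') := by
  classical
  have := Fintype.ofFinite X
  have := Fintype.ofFinite Y
  have := Fintype.ofFinite B
  have hsum : ∑ a : Y × Y, (Fintype.card B : ℤ) *
        (c (Mm q α a.1) * c (Mm q α a.2) * c (Mm q α a.1 + Mm q α a.2)) =
      ∑ a : Y × Y, (Fintype.card X : ℤ) ^ 2 * (K2 (Mm q α a.1) (Mm q α a.2) *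
        Z2 (Mm q α a.1) (Mm q α a.2)) := by
    calc ∑ a : Y × Y, (Fintype.card B : ℤ) *
        (c (Mm q α a.1) * c (Mm q α a.2) * c (Mm q α a.1 + Mm q α a.2))
        = Fintype.card B * ∑ y : Y, ∑ y' : Y,
            c (Mm q α y) * c (Mm q α y') * c (q.flip (y + y')) := by
          rw [← Fintype.sum_prod_type', Finset.mul_sum]
          apply Finset.sum_congr rfl
          intro a _
          rw [Mm_add]
      _ = Fintype.card B * ∑ y : Y, ∑ y' : Y,
            c (q.flip y) * c (q.flip y') * c (q.flip (y + y')) := by rw [sum_three hq hα]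
      _ = (Fintype.card X : ℤ) ^ 2 * ∑ y : Y, ∑ y' : Y,
            K2 (q.flip y) (q.flip y') * Z2 (q.flip y) (q.flip y') := by
          rw [Finset.mul_sum, Finset.mul_sum]
          apply Finset.sum_congr rfl
          intro y _
          rw [Finset.mul_sum, Finset.mul_sum]
          apply Finset.sum_congr rfl
          intro y' _
          rw [← (ms_eq_iff _ _).2 (hq' y y'), map_add]
      _ = (Fintype.card X : ℤ) ^ 2 * ∑ κ : D B, ∑ x : X,
            Zn (fun y => q.flip y) κ x * Zn (fun y => q.flip y) κ x := by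
          rw [sum_Zn_sq]
      _ = (Fintype.card X : ℤ) ^ 2 * ∑ κ : D B, ∑ x : X, Zn (Mm q α) κ x * Zn (Mm q α) κ x := by
          congr 1
          apply Finset.sum_congr rfl
          intro κ _
          apply Finset.sum_congr rfl
          intro x _
          rw [Zn_eq hq hα]
      _ = _ := by
          rw [sum_Zn_sq, ← Fintype.sum_prod_type', Finset.mul_sum]
  have h1 := (Finset.sum_eq_sum_iff_of_le (s := Finset.univ)
    (f := fun a : Y × Y => (Fintype.card B : ℤ) *
        (c (Mm q α a.1) * c (Mm q α a.2) * c (Mm q α a.1 + Mm q α a.2)))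
    (g := fun a : Y × Y => (Fintype.card X : ℤ) ^ 2 * (K2 (Mm q α a.1) (Mm q α a.2) *
        Z2 (Mm q α a.1) (Mm q α a.2)))
    (fun a _ => ms_le _ _)).1 hsum (y, y') (Finset.mem_univ _)
  exact (ms_eq_iff _ _).1 h1

/-- the bilinear map `p : Y × ZMod 2 → Hom (X, B)` extending `q` by `α` -/
def ext1 (q : X →ₗ[ZMod 2] Y →ₗ[ZMod 2] B) (α : X →ₗ[ZMod 2] B) :
    (Y × ZMod 2) →ₗ[ZMod 2] X →ₗ[ZMod 2] B :=
  q.flip.coprod (LinearMap.toSpanSingleton (ZMod 2) _ α)

theorem ext1_zero (y : Y) : ext1 q α (y, 0) = q.flip y := by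
  ext x; simp [ext1]

theorem ext1_one (y : Y) : ext1 q α (y, 1) = Mm q α y := by
  ext x; simp [ext1, add_comm]

theorem ext1_linked [Finite X] [Finite Y] [Finite B] (hq : Linked q) (hq' : Linked q.flip)
    (hα : ∀ x, ∃ y, q x y = α x) : Linked (ext1 q α) := by
  have mixed : ∀ (y y' : Y), Lk (Mm q α y) (q.flip y') := by
    intro y y' x1 x2 h
    have e : Mm q α (y + y') = Mm q α y + q.flip y' := by
      ext x
      simp only [Mm_apply, LinearMap.add_apply, LinearMap.flip_apply, map_add]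
      abel
    have h1 : Mm q α y (x1 + x2) = Mm q α (y + y') x2 := by
      rw [map_add, e, LinearMap.add_apply, h, add_comm]
    obtain ⟨t, ht1, ht2⟩ := Mm_linked hq hq' hα y (y + y') _ _ h1
    have h3 : q.flip y' t = 0 := by
      rw [e, LinearMap.add_apply, ht1] at ht2
      exact add_eq_left.1 ht2
    refine ⟨x2 + t, ?_, ?_⟩
    · rw [map_add, ht1, h1, e, LinearMap.add_apply, ← add_assoc, ZModModule.add_self, zero_add, h]
    · rw [map_add, h3, add_zero, h]
  rintro ⟨y, ε⟩ ⟨y', ε'⟩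
  rcases zm ε with rfl | rfl <;> rcases zm ε' with rfl | rfl
  · rw [ext1_zero, ext1_zero]; exact hq' y y'
  · rw [ext1_zero, ext1_one]
    intro x x' h
    obtain ⟨t, h1, h2⟩ := mixed y' y x' x h.symm
    exact ⟨t, by rw [h2, h], by rw [h1, h]⟩
  · rw [ext1_one, ext1_zero]; exact mixed y y'
  · rw [ext1_one, ext1_one]; exact Mm_linked hq hq' hα y y'

/-- **S2.** -/
theorem saturation_two [Finite X] [Finite Y] [Finite B] (hq : Linked q) (hq' : Linked q.flip)
    (hα : ∀ x, ∃ y, q x y = α x) : ∃ y, ∀ x, α x = q x y := by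
  have hL := ext1_linked hq hq' hα
  -- the subspace of functionals
  let G : Submodule (ZMod 2) (D (Y × ZMod 2)) :=
    { carrier := {χ | ∃ κ x, fct (ext1 q α) κ x = χ}
      add_mem' := fun h₁ h₂ => closure_add hL h₁ h₂
      zero_mem' := ⟨0, 0, by ext <;> simp⟩
      smul_mem' := by
        rintro a χ ⟨κ, x, h⟩
        rcases zm a with rfl | rfl
        · exact ⟨0, 0, by rw [zero_smul]; ext <;> simp⟩
        · exact ⟨κ, x, by rw [one_smul, h]⟩ }
  have hτ : LinearMap.snd (ZMod 2) Y (ZMod 2) ∉ G := by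
    rintro ⟨κ, x, h⟩
    obtain ⟨y, hy⟩ := hα x
    have h1 := LinearMap.congr_fun h (y, 0)
    have h2 := LinearMap.congr_fun h (0, 1)
    rw [fct_apply, ext1_zero] at h1
    rw [fct_apply, ext1_one] at h2
    simp only [LinearMap.flip_apply, LinearMap.snd_apply, Mm_apply, map_zero, add_zero] at h1 h2
    rw [hy, h2] at h1
    exact one_ne_zero h1
  obtain ⟨F, hF1, hF2⟩ := exists_dual_sep hτ
  obtain ⟨z, rfl⟩ := (Module.evalEquiv (ZMod 2) (Y × ZMod 2)).surjective F
  obtain ⟨y0, ε⟩ := z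
  have h1 : ε = 1 := by simpa using hF1
  subst h1
  refine ⟨y0, fun x => ?_⟩
  apply eq_of_add_eq_zero
  by_contra hne
  obtain ⟨κ, hκ⟩ := exists_dual_ne hne
  have h2 := hF2 (fct (ext1 q α) κ x) ⟨κ, x, rfl⟩
  rw [Module.evalEquiv_apply, Module.Dual.eval_apply, fct_apply, ext1_one, Mm_apply] at h2
  rw [h2] at hκ
  exact zero_ne_one hκ

end sat

end ETC
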