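import Pool.Agent.ETC.Split

/-!
The splittings of an element form a Boolean algebra.
-/

set_option linter.unusedSectionVars false

namespace ETC

open Pool.Agent.Helper58.PLine (QData)

variable {V Q : Type} [AddCommGroup V] [Module (ZMod 2) V] {S : QData V Q}

/-- a map `α` whose value at `v` is a quaternion `q (x, u v)` of `Q_x ∩ Q_v`, `u` additive modulo
`V_x`, is given by an element -/
theorem exists_of_pointwise [Finite V] {x : V} (u : V → V)
    (hadd : ∀ v v', S.q x (u (v + v')) = S.q x (u v + u v'))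
    (hpt : ∀ v, ∃ s, S.q x (u v) = S.q v s) : ∃ z, ∀ v, S.q x (u v) = S.q v z := by
  apply saturation
  intro v v'
  obtain ⟨s, hs⟩ := hpt v
  obtain ⟨s', hs'⟩ := hpt v'
  obtain ⟨r, hr⟩ := hpt (v + v')
  obtain ⟨t, h1, h2⟩ := strong_link (S := S) (a := v) (b := v') (p := x) (s := s) (t := s')
    (s' := u v) (t' := u v') hs.symm hs'.symm ⟨r, by rw [← hr, hadd]⟩
  refine ⟨t, ?_, ?_, ?_⟩
  · show S.q x (u v) = _
    rw [h1, hs]
  · show S.q x (u v') = _
    rw [h2, hs']
  show S.q x (u (v + v')) = _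
  rw [hadd]
  have e1 : S.q t v = S.q x (u v) := by rw [S.symm, h1, hs]
  have e2 : S.q t v' = S.q x (u v') := by rw [S.symm, h2, hs']
  rw [← add_common e1 e2, S.symm]

/-- the meet of two splittings: `q (z, v) = q (x, u)` whenever `q (p, u) = q (y, v)` -/
theorem HH_meet [Finite V] {p x y : V} (hx : HH S p x) (hy : HH S p y) :
    ∃ z, HH S p z ∧ ∀ u v, S.q p u = S.q y v → S.q z v = S.q x u := by
  obtain ⟨hy1, hy2⟩ := HH_iff'.1 hy
  obtain ⟨hx1, hx2⟩ := HH_iff'.1 hx
  choose u hu using hy1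
  -- independence of the choice of `u`
  have hind : ∀ a b, S.q p a = S.q p b → S.q x a = S.q x b := by
    intro a b hab
    rw [S.eq_iff] at hab ⊢
    exact hx2 hab
  obtain ⟨z, hz⟩ := exists_of_pointwise (S := S) (x := x) u (by
    intro v v'
    apply hind
    rw [← hu]
    exact (add_common (hu v).symm (hu v').symm).symm) (by
    intro v
    obtain ⟨w, hw⟩ := HH_distrib (y := v) hx (u := u v) ⟨y, by rw [← hu, S.symm]⟩
    exact ⟨w, hw⟩)
  have hz' : ∀ a v, S.q p a = S.q y v → S.q z v = S.q x a := by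
    intro a v h
    rw [S.symm z, ← hz]
    apply hind
    rw [← hu, h]
  refine ⟨z, ?_, hz'⟩
  rw [HH_iff']
  constructor
  · intro v
    obtain ⟨w, hw⟩ := hx1 (u v)
    exact ⟨w, by rw [← hw]; exact hz' _ _ (hu v).symm⟩
  · intro v hv
    have h1 : S.q y v = S.z := hy2 hv
    show S.q z v = S.z
    rw [hz' 0 v (by rw [h1, S.q_zero]), S.q_zero]

end ETC
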