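import Mathlib

/-!
Character sums over finite vector spaces over `ZMod 2`, and the rank (in)equality for a pair of
linear maps.
-/

set_option linter.unusedSectionVars false

namespace ETC

open Finset

/-- the sign of an element of `ZMod 2` -/
def sg (a : ZMod 2) : ℤ := if a = 0 then 1 else -1

@[simp] theorem sg_zero : sg 0 = 1 := rfl

@[simp] theorem sg_one : sg 1 = -1 := rfl

theorem sg_add (a b : ZMod 2) : sg (a + b) = sg a * sg b := by
  revert a b; decide

theorem zm (a : ZMod 2) : a = 0 ∨ a = 1 := by revert a; decide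

open Classical in
/-- indicator of a proposition -/
noncomputable def ind (P : Prop) : ℤ := if P then 1 else 0

theorem ind_true {P : Prop} (h : P) : ind P = 1 := if_pos h

theorem ind_false {P : Prop} (h : ¬ P) : ind P = 0 := if_neg h

theorem ind_and (P Q : Prop) : ind (P ∧ Q) = ind P * ind Q := by
  by_cases hP : P <;> by_cases hQ : Q <;> simp [ind, hP, hQ]

theorem ind_congr {P Q : Prop} (h : P ↔ Q) : ind P = ind Q := by
  rw [show P = Q from propext h]

theorem ind_nonneg (P : Prop) : 0 ≤ ind P := by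
  unfold ind; split_ifs <;> simp

theorem ind_le {P Q : Prop} (h : P → Q) : ind P ≤ ind Q := by
  by_cases hP : P
  · rw [ind_true hP, ind_true (h hP)]
  · rw [ind_false hP]; exact ind_nonneg Q

variable {V W B : Type} [AddCommGroup V] [Module (ZMod 2) V] [AddCommGroup W] [Module (ZMod 2) W]
  [AddCommGroup B] [Module (ZMod 2) B]

theorem add_add_self (x y : V) : x + (x + y) = y := by
  rw [← add_assoc, ZModModule.add_self, zero_add]

theorem add_add_self' (x y : V) : x + y + y = x := by
  rw [add_assoc, ZModModule.add_self, add_zero]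

theorem eq_of_add_eq_zero {x y : V} (h : x + y = 0) : x = y := by
  have := congrArg (fun t => t + y) h
  simp only [zero_add] at this
  rw [add_assoc, ZModModule.add_self, add_zero] at this
  exact this

theorem add_eq_zero_iff {x y : V} : x + y = 0 ↔ x = y :=
  ⟨eq_of_add_eq_zero, fun h => by rw [h, ZModModule.add_self]⟩

instance instFiniteHom [Finite V] [Finite W] : Finite (V →ₗ[ZMod 2] W) :=
  Finite.of_injective (fun f => (f : V → W)) DFunLike.coe_injective

/-- the dual -/
abbrev D (V : Type) [AddCommGroup V] [Module (ZMod 2) V] := V →ₗ[ZMod 2] ZMod 2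

noncomputable instance instFintypeD [Finite V] : Fintype (D V) := Fintype.ofFinite _

theorem sum_sg [Fintype V] (f : D V) :
    ∑ v : V, sg (f v) = (Fintype.card V : ℤ) * ind (f = 0) := by
  by_cases h : f = 0
  · simp [h, ind_true]
  · rw [ind_false h, mul_zero]
    obtain ⟨v0, hv0⟩ : ∃ v0, f v0 = 1 := by
      by_contra hc
      push Not at hc
      exact h (LinearMap.ext fun v => (zm (f v)).resolve_right (hc v))
    have h1 : ∑ v : V, sg (f v) = ∑ v : V, sg (f (v + v0)) :=
      (Equiv.sum_comp (Equiv.addRight v0) (fun v => sg (f v))).symm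
    have h2 : ∑ v : V, sg (f (v + v0)) = - ∑ v : V, sg (f v) := by
      rw [← Finset.sum_neg_distrib]
      apply Finset.sum_congr rfl
      intro v _
      rw [map_add, sg_add, hv0, sg_one, mul_neg, mul_one]
    omega

theorem exists_dual_ne {v : V} (h : v ≠ 0) : ∃ f : D V, f v = 1 := by
  by_contra hc
  push Not at hc
  apply h
  rw [← Module.forall_dual_apply_eq_zero_iff (ZMod 2)]
  exact fun f => (zm (f v)).resolve_right (hc f)

/-- separation of a point from a subspace -/
theorem exists_dual_sep {p : Submodule (ZMod 2) V} {x : V} (hx : x ∉ p) :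
    ∃ f : D V, f x = 1 ∧ ∀ y ∈ p, f y = 0 := by
  obtain ⟨f, hf, hp⟩ := Submodule.exists_dual_map_eq_bot_of_notMem hx inferInstance
  refine ⟨f, (zm (f x)).resolve_left hf, fun y hy => ?_⟩
  have : f y ∈ p.map f := Submodule.mem_map_of_mem hy
  rw [hp] at this
  simpa using this

theorem card_D [Fintype V] : Fintype.card (D V) = Fintype.card V := by
  have h1 := Module.card_eq_pow_finrank (K := ZMod 2) (V := V)
  have h2 := Module.card_eq_pow_finrank (K := ZMod 2) (V := D V)
  rw [h1, h2]
  congr 1
  exact Subspace.dual_finrank_eq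

theorem sum_sg_dual [Fintype V] (v : V) :
    ∑ f : D V, sg (f v) = (Fintype.card V : ℤ) * ind (v = 0) := by
  have h := sum_sg (V := D V) (LinearMap.applyₗ (R := ZMod 2) v)
  simp only [LinearMap.applyₗ_apply_apply] at h
  rw [h, card_D]
  congr 1
  apply ind_congr
  constructor
  · intro h0
    by_contra hv
    obtain ⟨f, hf⟩ := exists_dual_ne hv
    have := LinearMap.congr_fun h0 f
    simp [hf] at this
  · rintro rfl
    ext f
    simp

theorem card_pos' [Fintype V] : (0 : ℤ) < Fintype.card V := by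
  exact_mod_cast Fintype.card_pos

/-! ### solutions of linear systems -/

/-- shifting a system of affine conditions by a solution -/
theorem sum_ind_shift [Fintype V] (P Q : V → Prop) (v0 : V) (h : ∀ v, P (v + v0) ↔ Q v) :
    ∑ v : V, ind (P v) = ∑ v : V, ind (Q v) := by
  rw [← Equiv.sum_comp (Equiv.addRight v0) (fun v => ind (P v))]
  exact Finset.sum_congr rfl fun v _ => ind_congr (h v)

/-- the number of zeros of a linear map -/
noncomputable def c [Fintype V] (g : V →ₗ[ZMod 2] B) : ℤ := ∑ v : V, ind (g v = 0)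

theorem c_pos [Fintype V] (g : V →ₗ[ZMod 2] B) : 0 < c g := by
  unfold c
  apply Finset.sum_pos' (fun v _ => ind_nonneg _)
  exact ⟨0, Finset.mem_univ _, by simp [ind]⟩

/-- the number of functionals killing the image of a linear map -/
theorem dual_count [Fintype V] [Fintype B] (g : V →ₗ[ZMod 2] B) :
    (∑ κ : D B, ind (κ ∘ₗ g = 0)) * Fintype.card V = Fintype.card B * c g := by
  have h1 : ∑ κ : D B, ∑ v : V, sg (κ (g v)) =
      (∑ κ : D B, ind (κ ∘ₗ g = 0)) * Fintype.card V := by
    rw [Finset.sum_mul]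
    apply Finset.sum_congr rfl
    intro κ _
    rw [mul_comm]
    exact sum_sg (κ ∘ₗ g)
  have h2 : ∑ κ : D B, ∑ v : V, sg (κ (g v)) = Fintype.card B * c g := by
    rw [Finset.sum_comm, c, Finset.mul_sum]
    apply Finset.sum_congr rfl
    intro v _
    exact sum_sg_dual (g v)
  rw [← h1, h2]

/-- the number of pairs `(x, x')` with `g x = g' x'` -/
noncomputable def A2 [Fintype V] (g g' : V →ₗ[ZMod 2] B) : ℤ :=
  ∑ x : V, ∑ x' : V, ind (g x = g' x')

/-- the number of functionals killing the images of `g` and `g'` -/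
noncomputable def K2 [Fintype B] (g g' : V →ₗ[ZMod 2] B) : ℤ :=
  ∑ κ : D B, ind (κ ∘ₗ g = 0 ∧ κ ∘ₗ g' = 0)

/-- the number of common zeros of `g` and `g'` -/
noncomputable def Z2 [Fintype V] (g g' : V →ₗ[ZMod 2] B) : ℤ :=
  ∑ x : V, ind (g x = 0 ∧ g' x = 0)

/-- the number of linked pairs -/
noncomputable def L2 [Fintype V] (g g' : V →ₗ[ZMod 2] B) : ℤ :=
  ∑ x : V, ∑ x' : V, ind (∃ t, g t = g x ∧ g' t = g' x' ∧ g t = g' t)

/-- `g` and `g'` are linked -/
def Lk (g g' : V →ₗ[ZMod 2] B) : Prop := ∀ x x', g x = g' x' → ∃ t, g t = g x ∧ g' t = g x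

theorem K2_nonneg [Fintype B] (g g' : V →ₗ[ZMod 2] B) : 0 ≤ K2 g g' :=
  Finset.sum_nonneg fun _ _ => ind_nonneg _

theorem K2_mul [Fintype V] [Fintype B] (g g' : V →ₗ[ZMod 2] B) :
    K2 g g' * (Fintype.card V : ℤ) ^ 2 = Fintype.card B * A2 g g' := by
  have h := dual_count (g.coprod g')
  have h1 : (∑ κ : D B, ind (κ ∘ₗ (g.coprod g') = 0)) = K2 g g' := by
    unfold K2
    apply Finset.sum_congr rfl
    intro κ _
    apply ind_congr
    constructor
    · intro h0
      constructor
      · ext v
        have := LinearMap.congr_fun h0 (v, 0)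
        simpa using this
      · ext v
        have := LinearMap.congr_fun h0 (0, v)
        simpa using this
    · rintro ⟨h0, h1⟩
      apply LinearMap.ext
      rintro ⟨v, w⟩
      have e0 := LinearMap.congr_fun h0 v
      have e1 := LinearMap.congr_fun h1 w
      simp only [LinearMap.comp_apply, LinearMap.zero_apply] at e0 e1
      simp [e0, e1]
  have h2 : c (g.coprod g') = A2 g g' := by
    unfold c A2
    rw [Fintype.sum_prod_type]
    apply Finset.sum_congr rfl
    intro x _
    apply Finset.sum_congr rfl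
    intro x' _
    apply ind_congr
    simp [add_eq_zero_iff]
  rw [h1, h2, Fintype.card_prod] at h
  rw [← h]
  push_cast
  ring

theorem Z2_pos [Fintype V] (g g' : V →ₗ[ZMod 2] B) : 0 < Z2 g g' := by
  unfold Z2
  apply Finset.sum_pos' (fun v _ => ind_nonneg _)
  exact ⟨0, Finset.mem_univ _, by simp [ind]⟩

theorem L2_mul [Fintype V] (g g' : V →ₗ[ZMod 2] B) :
    L2 g g' * Z2 g g' = c g * c g' * c (g + g') := by
  have h1 : c g * c g' * c (g + g') = ∑ t : V, ∑ x : V, ∑ x' : V,
      ind (g t = g x ∧ g' t = g' x' ∧ g t = g' t) := by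
    unfold c
    rw [mul_comm, Finset.sum_mul]
    apply Finset.sum_congr rfl
    intro t _
    have e1 : ∑ v : V, ind (g v = 0) = ∑ v : V, ind (g t = g v) := by
      apply sum_ind_shift _ _ t
      intro v
      rw [map_add, add_eq_zero_iff, eq_comm]
    have e2 : ∑ v : V, ind (g' v = 0) = ∑ v : V, ind (g' t = g' v) := by
      apply sum_ind_shift _ _ t
      intro v
      rw [map_add, add_eq_zero_iff, eq_comm]
    rw [e1, e2, Finset.sum_mul_sum, Finset.mul_sum]
    apply Finset.sum_congr rfl
    intro x _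
    rw [Finset.mul_sum]
    apply Finset.sum_congr rfl
    intro x' _
    rw [ind_and, ind_and]
    have e3 : ind ((g + g') t = 0) = ind (g t = g' t) := by
      apply ind_congr
      rw [LinearMap.add_apply, add_eq_zero_iff]
    rw [e3]
    ring
  rw [h1, Finset.sum_comm, L2, Finset.sum_mul]
  apply Finset.sum_congr rfl
  intro x _
  rw [Finset.sum_comm, Finset.sum_mul]
  apply Finset.sum_congr rfl
  intro x' _
  by_cases h : ∃ t, g t = g x ∧ g' t = g' x' ∧ g t = g' t
  · rw [ind_true h, one_mul]
    obtain ⟨t0, a1, a2, a3⟩ := h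
    symm
    apply sum_ind_shift _ _ t0
    intro v
    rw [map_add, map_add, a1, a2]
    have e1 : g v + g x = g x ↔ g v = 0 := by simp
    have e2 : g' v + g' x' = g' x' ↔ g' v = 0 := by simp
    rw [e1, e2]
    constructor
    · rintro ⟨b1, b2, -⟩; exact ⟨b1, b2⟩
    · rintro ⟨b1, b2⟩
      refine ⟨b1, b2, ?_⟩
      rw [b1, b2, ← a1, ← a2, a3]
  · rw [ind_false h, zero_mul]
    symm
    apply Finset.sum_eq_zero
    intro t _
    exact ind_false fun ht => h ⟨t, ht⟩

theorem L2_le_A2 [Fintype V] (g g' : V →ₗ[ZMod 2] B) : L2 g g' ≤ A2 g g' := by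
  apply Finset.sum_le_sum
  intro x _
  apply Finset.sum_le_sum
  intro x' _
  apply ind_le
  rintro ⟨t, h1, h2, h3⟩
  rw [← h1, ← h2, h3]

theorem L2_eq_A2_iff [Fintype V] (g g' : V →ₗ[ZMod 2] B) : L2 g g' = A2 g g' ↔ Lk g g' := by
  have hle : ∀ x x', ind (∃ t, g t = g x ∧ g' t = g' x' ∧ g t = g' t) ≤ ind (g x = g' x') := by
    intro x x'
    apply ind_le
    rintro ⟨t, h1, h2, h3⟩
    rw [← h1, ← h2, h3]
  constructor
  · intro h x x' hx
    have h1 := (Finset.sum_eq_sum_iff_of_le (s := Finset.univ) (f := fun x : V => ∑ x' : V,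
      ind (∃ t, g t = g x ∧ g' t = g' x' ∧ g t = g' t))
      (g := fun x : V => ∑ x' : V, ind (g x = g' x'))
      (fun x _ => Finset.sum_le_sum fun x' _ => hle x x')).1 h x (Finset.mem_univ _)
    have h2 := (Finset.sum_eq_sum_iff_of_le (s := Finset.univ) (f := fun x' : V =>
      ind (∃ t, g t = g x ∧ g' t = g' x' ∧ g t = g' t))
      (g := fun x' : V => ind (g x = g' x'))
      (fun x' _ => hle x x')).1 h1 x' (Finset.mem_univ _)
    rw [ind_true hx] at h2
    by_contra hc
    rw [ind_false] at h2
    · exact absurd h2 (by norm_num)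
    · rintro ⟨t, a1, a2, a3⟩
      exact hc ⟨t, a1, by rw [← a3, a1]⟩
  · intro h
    apply le_antisymm (L2_le_A2 g g')
    apply Finset.sum_le_sum
    intro x _
    apply Finset.sum_le_sum
    intro x' _
    apply ind_le
    intro hx
    obtain ⟨t, h1, h2⟩ := h x x' hx
    exact ⟨t, h1, by rw [h2, hx], by rw [h1, h2]⟩

/-- the rank inequality -/
theorem ms_le [Fintype V] [Fintype B] (g g' : V →ₗ[ZMod 2] B) :
    Fintype.card B * (c g * c g' * c (g + g')) ≤
      (Fintype.card V : ℤ) ^ 2 * (K2 g g' * Z2 g g') := by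
  rw [← L2_mul]
  calc (Fintype.card B : ℤ) * (L2 g g' * Z2 g g') ≤ Fintype.card B * (A2 g g' * Z2 g g') := by
        apply mul_le_mul_of_nonneg_left _ card_pos'.le
        exact mul_le_mul_of_nonneg_right (L2_le_A2 g g') (Z2_pos g g').le
    _ = (Fintype.card V : ℤ) ^ 2 * (K2 g g' * Z2 g g') := by
        have := K2_mul g g'
        linear_combination (-Z2 g g') * this

/-- equality in the rank inequality -/
theorem ms_eq_iff [Fintype V] [Fintype B] (g g' : V →ₗ[ZMod 2] B) :
    Fintype.card B * (c g * c g' * c (g + g')) =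
      (Fintype.card V : ℤ) ^ 2 * (K2 g g' * Z2 g g') ↔ Lk g g' := by
  rw [← L2_mul, ← L2_eq_A2_iff]
  have h1 : (Fintype.card V : ℤ) ^ 2 * (K2 g g' * Z2 g g') =
      Fintype.card B * (A2 g g' * Z2 g g') := by
    have := K2_mul g g'
    linear_combination (Z2 g g') * this
  rw [h1]
  constructor
  · intro h
    have h2 := mul_left_cancel₀ (card_pos' (V := B)).ne' h
    exact mul_right_cancel₀ (Z2_pos g g').ne' h2
  · intro h
    rw [h]

end ETC
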