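import Pool.Agent.ETC.Char

/-!
The closure lemma: for a linked bilinear map `F : Y → Hom(X, B)` the set of functionals
`η ↦ κ (F η x)` on `Y` is closed under addition.
-/

set_option linter.unusedSectionVars false

namespace ETC

open Finset

variable {X Y B : Type} [AddCommGroup X] [Module (ZMod 2) X] [AddCommGroup Y] [Module (ZMod 2) Y]
  [AddCommGroup B] [Module (ZMod 2) B]

/-- any two of the maps `F η`, `F η'` are linked -/
def Linked (F : Y →ₗ[ZMod 2] X →ₗ[ZMod 2] B) : Prop := ∀ η η', Lk (F η) (F η')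

/-- the functional `η ↦ κ (F η x)` -/
def fct (F : Y →ₗ[ZMod 2] X →ₗ[ZMod 2] B) (κ : D B) (x : X) : D Y := κ ∘ₗ (F.flip x)

@[simp] theorem fct_apply (F : Y →ₗ[ZMod 2] X →ₗ[ZMod 2] B) (κ : D B) (x : X) (η : Y) :
    fct F κ x η = κ (F η x) := rfl

/-- number of pairs `(κ, x)` with `κ (F · x) = χ` -/
noncomputable def Tn [Fintype X] [Fintype B] (F : Y →ₗ[ZMod 2] X →ₗ[ZMod 2] B) (χ : D Y) : ℤ :=
  ∑ κ : D B, ∑ x : X, ind (fct F κ x = χ)

theorem Tn_pos [Fintype X] [Fintype B] {F : Y →ₗ[ZMod 2] X →ₗ[ZMod 2] B} {χ : D Y}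
    (h : ∃ κ x, fct F κ x = χ) : 0 < Tn F χ := by
  obtain ⟨κ, x, h⟩ := h
  apply Finset.sum_pos' (fun κ _ => Finset.sum_nonneg fun x _ => ind_nonneg _)
  refine ⟨κ, Finset.mem_univ _, ?_⟩
  apply Finset.sum_pos' (fun x _ => ind_nonneg _)
  exact ⟨x, Finset.mem_univ _, by simp [ind, h]⟩

theorem Tn_zero [Fintype X] [Fintype B] {F : Y →ₗ[ZMod 2] X →ₗ[ZMod 2] B} {χ : D Y}
    (h : ¬ ∃ κ x, fct F κ x = χ) : Tn F χ = 0 := by
  apply Finset.sum_eq_zero
  intro κ _
  apply Finset.sum_eq_zero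
  intro x _
  exact ind_false fun hx => h ⟨κ, x, hx⟩

theorem sum_c_sg [Fintype X] [Fintype Y] [Fintype B] (F : Y →ₗ[ZMod 2] X →ₗ[ZMod 2] B)
    (χ : D Y) :
    Fintype.card B * ∑ η : Y, c (F η) * sg (χ η) = Fintype.card Y * Tn F χ := by
  have h1 : ∀ η : Y, (Fintype.card B : ℤ) * c (F η) = ∑ κ : D B, ∑ x : X, sg (κ (F η x)) := by
    intro η
    rw [Finset.sum_comm, c, Finset.mul_sum]
    apply Finset.sum_congr rfl
    intro x _
    exact (sum_sg_dual (F η x)).symm
  calc (Fintype.card B : ℤ) * ∑ η : Y, c (F η) * sg (χ η)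
      = ∑ η : Y, ∑ κ : D B, ∑ x : X, sg ((fct F κ x + χ) η) := by
        rw [Finset.mul_sum]
        apply Finset.sum_congr rfl
        intro η _
        rw [← mul_assoc, h1, Finset.sum_mul]
        apply Finset.sum_congr rfl
        intro κ _
        rw [Finset.sum_mul]
        apply Finset.sum_congr rfl
        intro x _
        rw [LinearMap.add_apply, sg_add, fct_apply]
    _ = ∑ κ : D B, ∑ x : X, ∑ η : Y, sg ((fct F κ x + χ) η) := by
        rw [Finset.sum_comm]
        apply Finset.sum_congr rfl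
        intro κ _
        rw [Finset.sum_comm]
    _ = Fintype.card Y * Tn F χ := by
        rw [Tn, Finset.mul_sum]
        apply Finset.sum_congr rfl
        intro κ _
        rw [Finset.mul_sum]
        apply Finset.sum_congr rfl
        intro x _
        rw [sum_sg]
        congr 1
        exact ind_congr add_eq_zero_iff

theorem conv_nonneg_aux [Fintype X] [Fintype Y] [Fintype B] (F : Y →ₗ[ZMod 2] X →ₗ[ZMod 2] B)
    (χ : D Y) (y : Y) : 0 ≤ ∑ η : Y, K2 (F η) (F y) * Z2 (F η) (F y) * sg (χ η) := by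
  have hX := card_pos' (V := X)
  have hB := card_pos' (V := B)
  have h1 : ∀ η : Y, (Fintype.card X : ℤ) * K2 (F η) (F y) =
      ∑ κ : D B, ∑ x : X, ind (κ ∘ₗ F y = 0) * sg (κ (F η x)) := by
    intro η
    rw [K2, Finset.mul_sum]
    apply Finset.sum_congr rfl
    intro κ _
    rw [ind_and, ← Finset.mul_sum]
    have := sum_sg (κ ∘ₗ F η)
    simp only [LinearMap.comp_apply] at this
    rw [this]
    ring
  have h2 : ∀ η : Y, (Fintype.card B : ℤ) * Z2 (F η) (F y) =
      ∑ x : X, ∑ κ : D B, ind (F y x = 0) * sg (κ (F η x)) := by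
    intro η
    rw [Z2, Finset.mul_sum]
    apply Finset.sum_congr rfl
    intro x _
    rw [ind_and, ← Finset.mul_sum]
    rw [sum_sg_dual]
    ring
  have h3 : (Fintype.card X * Fintype.card B : ℤ) *
      ∑ η : Y, K2 (F η) (F y) * Z2 (F η) (F y) * sg (χ η) =
      ∑ η : Y, ∑ a : D B × X, ∑ b : X × D B,
        ind (a.1 ∘ₗ F y = 0) * ind (F y b.1 = 0) *
          sg ((fct F a.1 a.2 + fct F b.2 b.1 + χ) η) := by
    rw [Finset.mul_sum]
    apply Finset.sum_congr rfl
    intro η _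
    have e : (Fintype.card X * Fintype.card B : ℤ) * (K2 (F η) (F y) * Z2 (F η) (F y) * sg (χ η))
        = (Fintype.card X * K2 (F η) (F y)) * (Fintype.card B * Z2 (F η) (F y)) * sg (χ η) := by
      ring
    rw [e, h1, h2, ← Fintype.sum_prod_type', ← Fintype.sum_prod_type', Finset.sum_mul_sum,
      Finset.sum_mul]
    apply Finset.sum_congr rfl
    intro a _
    rw [Finset.sum_mul]
    apply Finset.sum_congr rfl
    intro b _
    rw [LinearMap.add_apply, LinearMap.add_apply, sg_add, sg_add, fct_apply, fct_apply]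
    ring
  have h4 : 0 ≤ (Fintype.card X * Fintype.card B : ℤ) *
      ∑ η : Y, K2 (F η) (F y) * Z2 (F η) (F y) * sg (χ η) := by
    rw [h3, Finset.sum_comm]
    apply Finset.sum_nonneg
    intro a _
    rw [Finset.sum_comm]
    apply Finset.sum_nonneg
    intro b _
    rw [← Finset.mul_sum, sum_sg]
    apply mul_nonneg (mul_nonneg (ind_nonneg _) (ind_nonneg _))
    exact mul_nonneg (by positivity) (ind_nonneg _)
  by_contra hc
  push Not at hc
  have : (Fintype.card X * Fintype.card B : ℤ) *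
      ∑ η : Y, K2 (F η) (F y) * Z2 (F η) (F y) * sg (χ η) < 0 :=
    mul_neg_of_pos_of_neg (mul_pos hX hB) hc
  omega

theorem conv_nonneg [Fintype X] [Fintype Y] [Fintype B] {F : Y →ₗ[ZMod 2] X →ₗ[ZMod 2] B}
    (hF : Linked F) (χ : D Y) (y : Y) : 0 ≤ ∑ η : Y, c (F η) * c (F (η + y)) * sg (χ η) := by
  have h1 := conv_nonneg_aux F χ y
  have h2 : (Fintype.card X : ℤ) ^ 2 * ∑ η : Y, K2 (F η) (F y) * Z2 (F η) (F y) * sg (χ η) =
      (Fintype.card B * c (F y)) * ∑ η : Y, c (F η) * c (F (η + y)) * sg (χ η) := by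
    rw [Finset.mul_sum, Finset.mul_sum]
    apply Finset.sum_congr rfl
    intro η _
    have := (ms_eq_iff (F η) (F y)).2 (hF η y)
    rw [map_add]
    linear_combination (-sg (χ η)) * this
  have h3 : 0 ≤ (Fintype.card B * c (F y)) * ∑ η : Y, c (F η) * c (F (η + y)) * sg (χ η) := by
    rw [← h2]; positivity
  by_contra hc
  push Not at hc
  have h4 : (Fintype.card B * c (F y)) * ∑ η : Y, c (F η) * c (F (η + y)) * sg (χ η) < 0 :=
    mul_neg_of_pos_of_neg (mul_pos card_pos' (c_pos _)) hc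
  omega

/-- **Closure lemma.** -/
theorem closure_add [Finite X] [Finite Y] [Finite B] {F : Y →ₗ[ZMod 2] X →ₗ[ZMod 2] B}
    (hF : Linked F) {χ₁ χ₂ : D Y} (h₁ : ∃ κ x, fct F κ x = χ₁) (h₂ : ∃ κ x, fct F κ x = χ₂) :
    ∃ κ x, fct F κ x = χ₁ + χ₂ := by
  classical
  have := Fintype.ofFinite X
  have := Fintype.ofFinite Y
  have := Fintype.ofFinite B
  by_contra hc
  have hT := Tn_zero hc
  have hB := card_pos' (V := B)
  have hY := card_pos' (V := Y)
  have z1 : ∑ η : Y, c (F η) * sg ((χ₁ + χ₂) η) = 0 := by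
    have := sum_c_sg F (χ₁ + χ₂)
    rw [hT, mul_zero] at this
    exact (mul_eq_zero.1 this).resolve_left hB.ne'
  -- total sum of the convolutions
  have z2 : ∑ y : Y, ∑ η : Y, c (F η) * c (F (η + y)) * sg ((χ₁ + χ₂) η) = 0 := by
    rw [Finset.sum_comm]
    have : ∀ η : Y, ∑ y : Y, c (F η) * c (F (η + y)) * sg ((χ₁ + χ₂) η) =
        (c (F η) * sg ((χ₁ + χ₂) η)) * ∑ w : Y, c (F w) := by
      intro η
      rw [← Equiv.sum_comp (Equiv.addLeft η) (fun w => c (F w)), Finset.mul_sum]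
      apply Finset.sum_congr rfl
      intro y _
      simp only [Equiv.coe_addLeft]
      ring
    rw [Finset.sum_congr rfl fun η _ => this η, ← Finset.sum_mul, z1, zero_mul]
  have z3 : ∀ y : Y, ∑ η : Y, c (F η) * c (F (η + y)) * sg ((χ₁ + χ₂) η) = 0 := by
    intro y
    exact (Finset.sum_eq_zero_iff_of_nonneg (fun y _ => conv_nonneg hF (χ₁ + χ₂) y)).1 z2 y
      (Finset.mem_univ y)
  have z4 : ∑ y : Y, (∑ η : Y, c (F η) * c (F (η + y)) * sg ((χ₁ + χ₂) η)) * sg (χ₂ y) =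
      (∑ η : Y, c (F η) * sg (χ₁ η)) * ∑ w : Y, c (F w) * sg (χ₂ w) := by
    rw [Finset.sum_congr rfl fun y _ => Finset.sum_mul _ _ _, Finset.sum_comm, Finset.sum_mul]
    apply Finset.sum_congr rfl
    intro η _
    rw [← Equiv.sum_comp (Equiv.addLeft η) (fun w => c (F w) * sg (χ₂ w)), Finset.mul_sum]
    apply Finset.sum_congr rfl
    intro y _
    simp only [Equiv.coe_addLeft]
    rw [LinearMap.add_apply, sg_add, map_add χ₂, sg_add]
    ring
  have z5 : ∑ y : Y, (∑ η : Y, c (F η) * c (F (η + y)) * sg ((χ₁ + χ₂) η)) * sg (χ₂ y) = 0 := by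
    apply Finset.sum_eq_zero
    intro y _
    rw [z3 y, zero_mul]
  rw [z5] at z4
  have p1 : ∀ χ : D Y, (∃ κ x, fct F κ x = χ) → (∑ η : Y, c (F η) * sg (χ η)) ≠ 0 := by
    intro χ hχ h0
    have := sum_c_sg F χ
    rw [h0, mul_zero] at this
    exact (mul_pos hY (Tn_pos hχ)).ne' this.symm
  rcases mul_eq_zero.1 z4.symm with h | h
  · exact p1 _ h₁ h
  · exact p1 _ h₂ h

end ETC
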