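import Pool.Agent.Lib_MP_d26ff6_al.Defs
import Pool.Agent.ETC.QSat2

/-!
From quaternionic structures (multiplicative notation) to quaternionic data.
-/

namespace ETC

open Pool.Agent.Helper58.PLine (QData)

/-- The quaternionic data of a quaternionic structure. -/
def toData (S : QS.QStruct) : @QData (Additive S.G) S.Q _
    (AddCommGroup.zmodModule (n := 2) (fun x => by
      rw [two_nsmul]; exact S.exp_two (Additive.toMul x))) :=
  letI : Module (ZMod 2) (Additive S.G) := AddCommGroup.zmodModule (n := 2) (fun x => by
      rw [two_nsmul]; exact S.exp_two (Additive.toMul x))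
  { q := fun x y => S.q (Additive.toMul x) (Additive.toMul y)
    z := S.zero
    e := Additive.ofMul S.neg
    symm := fun x y => S.qs2 _ _
    add := fun x y w => S.qs3 _ _ _
    diag := by
      intro x
      have := S.qs1 (Additive.toMul x)
      rwa [mul_comm] at this
    link := by
      intro a b c d h
      obtain ⟨x, h1, h2⟩ := S.qs4 _ _ _ _ h
      exact ⟨Additive.ofMul x, h1, h2⟩ }

theorem saturationQS (S : QS.QStruct) [Finite S.G] (α : S.G → S.Q)
    (h : ∀ x y, ∃ v, α x = S.q x v ∧ α y = S.q y v ∧ α (x * y) = S.q (x * y) v) :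
    ∃ p, ∀ x, α x = S.q x p := by
  letI : Module (ZMod 2) (Additive S.G) := AddCommGroup.zmodModule (n := 2) (fun x => by
      rw [two_nsmul]; exact S.exp_two (Additive.toMul x))
  have hf : Finite (Additive S.G) := (inferInstance : Finite S.G)
  obtain ⟨p, hp⟩ := saturation (S := toData S) (α := fun x => α (Additive.toMul x)) (by
    intro x y
    obtain ⟨v, h1, h2, h3⟩ := h (Additive.toMul x) (Additive.toMul y)
    exact ⟨Additive.ofMul v, h1, h2, h3⟩)
  exact ⟨Additive.toMul p, fun x => hp (Additive.ofMul x)⟩

end ETC
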