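import Pool.Agent.ETC.Witt4

/-!
Strongly orthogonal splittings of an element of a finite quaternionic structure.
-/

set_option linter.unusedSectionVars false

namespace ETC

open Finset
open Pool.Agent.Helper58.PLine (QData)

variable {V Q : Type} [AddCommGroup V] [Module (ZMod 2) V] {S : QData V Q}

/-- a positive definite function is invariant under every `h` with `F h = F 0` -/
theorem pd_periodic [Fintype V] {F : V → ℤ} (hF : ∀ χ : D V, 0 ≤ ∑ v : V, F v * sg (χ v))
    {h : V} (h0 : F h = F 0) (v : V) : F (v + h) = F v := by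
  classical
  have inv : ∀ v : V, ∑ χ : D V, (∑ u : V, F u * sg (χ u)) * sg (χ v) =
      Fintype.card V * F v := by
    intro v
    have e1 : ∀ χ : D V, (∑ u : V, F u * sg (χ u)) * sg (χ v) =
        ∑ u : V, F u * sg (χ (u + v)) := by
      intro χ
      rw [Finset.sum_mul]
      apply Finset.sum_congr rfl
      intro u _
      rw [map_add, sg_add]; ring
    rw [Finset.sum_congr rfl fun χ _ => e1 χ, Finset.sum_comm]
    have e2 : ∀ u : V, ∑ χ : D V, F u * sg (χ (u + v)) =
        Fintype.card V * (if u = v then F u else 0) := by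
      intro u
      rw [← Finset.mul_sum, sum_sg_dual]
      by_cases huv : u = v
      · rw [if_pos huv, ind_true (add_eq_zero_iff.2 huv)]; ring
      · rw [if_neg huv, ind_false (fun h => huv (add_eq_zero_iff.1 h))]; ring
    rw [Finset.sum_congr rfl fun u _ => e2 u, ← Finset.mul_sum, Finset.sum_ite_eq']
    simp
  have key : ∀ χ : D V, (∑ u : V, F u * sg (χ u)) * (1 - sg (χ h)) = 0 := by
    have hs : ∑ χ : D V, (∑ u : V, F u * sg (χ u)) * (1 - sg (χ h)) = 0 := by
      have e : ∀ χ : D V, (∑ u : V, F u * sg (χ u)) * (1 - sg (χ h)) =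
          (∑ u : V, F u * sg (χ u)) * sg (χ 0) - (∑ u : V, F u * sg (χ u)) * sg (χ h) := by
        intro χ
        rw [map_zero, sg_zero]; ring
      rw [Finset.sum_congr rfl fun χ _ => e χ, Finset.sum_sub_distrib, inv, inv, h0, sub_self]
    have hnn : ∀ χ : D V, 0 ≤ (∑ u : V, F u * sg (χ u)) * (1 - sg (χ h)) := by
      intro χ
      apply mul_nonneg (hF χ)
      rcases zm (χ h) with h1 | h1 <;> rw [h1] <;> simp
    intro χ
    exact (Finset.sum_eq_zero_iff_of_nonneg (fun χ _ => hnn χ)).1 hs χ (Finset.mem_univ _)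
  have e3 : (Fintype.card V : ℤ) * F (v + h) = Fintype.card V * F v := by
    rw [← inv, ← inv]
    apply Finset.sum_congr rfl
    intro χ _
    rw [map_add, sg_add]
    linear_combination (-sg (χ v)) * key χ
  exact mul_left_cancel₀ (card_pos' (V := V)).ne' e3

/-- the identity family -/
def wid (V : Type) [AddCommGroup V] [Module (ZMod 2) V] : V → V →ₗ[ZMod 2] V :=
  fun _ => LinearMap.id

theorem wid_fam : Fam S (wid V) :=
  ⟨fun _ _ => ⟨LinearMap.id, fun _ => ⟨rfl, rfl, rfl⟩⟩⟩

theorem gg_wid (η x : V) : gg S (wid V) η x = S.q x η := rfl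

theorem wid_linked (η η' : V) : LkQ S (wid V) η η' := by
  intro x x' h
  rw [gg_wid, gg_wid] at h
  obtain ⟨t, h1, h2⟩ := S.link η x η' x' (by rw [S.symm η, S.symm η', h])
  refine ⟨t, ?_, ?_⟩
  · rw [gg_wid, gg_wid, S.symm t, ← h1, S.symm]
  · rw [gg_wid, gg_wid, S.symm t, ← h2, S.symm, h]

variable (S) in
/-- dimension of `V_x` -/
noncomputable def dd (x : V) : ℕ := Module.finrank (ZMod 2) (S.ann x)

theorem card_sub [Finite V] (U : Submodule (ZMod 2) V) :
    Nat.card U = 2 ^ Module.finrank (ZMod 2) U := by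
  have := Module.natCard_eq_pow_finrank (K := ZMod 2) (V := U)
  rw [this, Nat.card_zmod]

theorem cc_eq [Fintype V] (x : V) : cc S (wid V) x = 2 ^ dd S x := by
  classical
  have h1 : cc S (wid V) x = (Nat.card (S.ann x) : ℤ) := by
    unfold cc
    have : ∀ v : V, ind (gg S (wid V) x v = S.z) = if v ∈ S.ann x then (1 : ℤ) else 0 := by
      intro v
      rw [gg_wid, S.symm]
      unfold ind
      by_cases hv : S.q x v = S.z
      · rw [if_pos hv, if_pos (show v ∈ S.ann x from hv)]
      · rw [if_neg hv, if_neg (show ¬ v ∈ S.ann x from hv)]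
    rw [Finset.sum_congr rfl fun v _ => this v, Finset.sum_boole, Nat.card_eq_fintype_card,
      Fintype.card_subtype]
  rw [h1, card_sub]
  push_cast
  rfl

/-- `h` splits `p` strongly orthogonally -/
def HH (S : QData V Q) (p h : V) : Prop := dd S h + dd S (h + p) = dd S 0 + dd S p

theorem HH_shift [Finite V] {p h : V} (hh : HH S p h) (y : V) :
    dd S (y + h) + dd S (y + h + p) = dd S y + dd S (y + p) := by
  classical
  have := Fintype.ofFinite V
  have hF : ∀ χ : D V, 0 ≤ ∑ v : V,
      (fun v => cc S (wid V) v * cc S (wid V) (v + p)) v * sg (χ v) :=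
    fun χ => convQ_nonneg wid_fam wid_linked χ p
  have h1 := pd_periodic hF (h := h) (by
    simp only [cc_eq, zero_add]
    rw [← pow_add, ← pow_add, hh]) y
  simp only [cc_eq] at h1
  rw [← pow_add, ← pow_add] at h1
  exact Int.pow_right_injective (by norm_num) h1

theorem HH_zero (p : V) : HH S p 0 := by unfold HH; rw [zero_add]

theorem HH_self (p : V) : HH S p p := by
  unfold HH; rw [ZModModule.add_self, add_comm]

theorem HH_add [Finite V] {p h h' : V} (hh : HH S p h) (hh' : HH S p h') : HH S p (h + h') := by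
  unfold HH
  rw [HH_shift hh' h]
  exact hh

/-- characterisation of splittings by subspaces -/
theorem HH_iff [Finite V] {p h : V} :
    HH S p h ↔ S.ann h ⊔ S.ann (h + p) = ⊤ ∧ S.ann p ≤ S.ann h := by
  have hle : S.ann h ⊓ S.ann (h + p) ≤ S.ann p := by
    rintro v ⟨h1, h2⟩
    have h1 : S.q h v = S.z := h1
    have h2 : S.q (h + p) v = S.z := h2
    have h3 := S.eq_iff'.2 h2
    show S.q p v = S.z
    rw [← h3, h1]
  have h0 : dd S 0 = Module.finrank (ZMod 2) V := by
    unfold dd
    have : S.ann 0 = ⊤ := by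
      rw [eq_top_iff]; intro v _; exact S.ann_zero v
    rw [this, finrank_top]
  have h1 := Submodule.finrank_sup_add_finrank_inf_eq (S.ann h) (S.ann (h + p))
  have h2 := Submodule.finrank_mono hle
  have h3 := Submodule.finrank_le (S.ann h ⊔ S.ann (h + p))
  constructor
  · intro hh
    unfold HH at hh
    rw [h0] at hh
    unfold dd at hh
    have e1 : Module.finrank (ZMod 2) (S.ann h ⊔ S.ann (h + p) : Submodule (ZMod 2) V) =
        Module.finrank (ZMod 2) V := by omega
    have e2 : Module.finrank (ZMod 2) (S.ann h ⊓ S.ann (h + p) : Submodule (ZMod 2) V) =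
        Module.finrank (ZMod 2) (S.ann p) := by omega
    refine ⟨Submodule.eq_top_of_finrank_eq e1, ?_⟩
    rw [← Submodule.eq_of_le_of_finrank_eq hle e2]
    exact inf_le_left
  · rintro ⟨e1, e2⟩
    have e3 : S.ann h ⊓ S.ann (h + p) = S.ann p := by
      apply le_antisymm hle
      apply le_inf e2
      intro v hv
      have h4 : S.q h v = S.z := e2 hv
      have h5 : S.q p v = S.z := hv
      exact S.eq_iff'.1 (by rw [h4, h5])
    rw [e1, e3, finrank_top] at h1
    unfold HH
    rw [h0]
    unfold dd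
    omega

/-- the splitting property in terms of quaternions: `Q_h ⊆ Q_p` and `V_p ≤ V_h` -/
theorem HH_iff' [Finite V] {p h : V} :
    HH S p h ↔ (∀ v, ∃ u, S.q h v = S.q p u) ∧ S.ann p ≤ S.ann h := by
  rw [HH_iff]
  refine and_congr_left fun _ => ?_
  constructor
  · intro h1 v
    exact (S.rel_iff).2 (h1 ▸ Submodule.mem_top)
  · intro h1
    rw [eq_top_iff]
    intro v _
    exact (S.rel_iff).1 (h1 v)

theorem HH_compl [Finite V] {p h : V} (hh : HH S p h) : HH S p (h + p) :=
  HH_add hh (HH_self p)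

/-- **distributivity**: if `q (p, u)` is a value of `y`, so is `q (h, u)`. -/
theorem HH_distrib [Finite V] {p h y u : V} (hh : HH S p h) (hu : ∃ v, S.q p u = S.q y v) :
    ∃ v, S.q h u = S.q y v := by
  -- `w = h + p`
  have hsh := HH_shift hh y
  obtain ⟨hsup, hle⟩ := HH_iff.1 hh
  have hle' : S.ann p ≤ S.ann (h + p) := (HH_iff.1 (HH_compl hh)).2
  have h0 : dd S 0 = Module.finrank (ZMod 2) V := by
    unfold dd
    have : S.ann 0 = ⊤ := by
      rw [eq_top_iff]; intro v _; exact S.ann_zero v
    rw [this, finrank_top]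
  -- J_p ≤ ... the subspaces of all `u` with `q (x, u)` a value of `y`
  have key : S.ann p ⊔ S.ann (p + y) ≤ S.ann h ⊔ S.ann (h + y) := by
    set Jp := S.ann p ⊔ S.ann (p + y) with hJp
    set Jh := S.ann h ⊔ S.ann (h + y) with hJh
    set Jw := S.ann (h + p) ⊔ S.ann (h + p + y) with hJw
    have h1 : Jh ⊓ Jw ≤ Jp := by
      rintro v ⟨k1, k2⟩
      obtain ⟨a, ha⟩ := (S.rel_iff).2 k1
      obtain ⟨b, hb⟩ := (S.rel_iff).2 k2
      apply (S.rel_iff).1
      refine ⟨a + b, ?_⟩
      have := add_common (S := S) (x := v) (v := y) (s := h) (t := a) (s' := h + p) (t' := b)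
        (by rw [S.symm, ha]) (by rw [S.symm, hb])
      rw [add_add_self] at this
      rw [S.symm, this]
    have h2 : Jh ⊔ Jw = ⊤ := by
      rw [eq_top_iff, ← hsup]
      exact sup_le_sup le_sup_left le_sup_left
    -- the intersections with `V_y`
    have i1 : S.ann p ⊓ S.ann (p + y) = S.ann p ⊓ S.ann y := by
      ext v
      simp only [Submodule.mem_inf, S.mem_ann]
      constructor
      · rintro ⟨k1, k2⟩
        exact ⟨k1, by rw [← S.eq_iff'.2 k2, k1]⟩
      · rintro ⟨k1, k2⟩
        exact ⟨k1, S.eq_iff'.1 (by rw [k1, k2])⟩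
    have i2 : S.ann h ⊓ S.ann (h + y) = S.ann h ⊓ S.ann y := by
      ext v
      simp only [Submodule.mem_inf, S.mem_ann]
      constructor
      · rintro ⟨k1, k2⟩
        exact ⟨k1, by rw [← S.eq_iff'.2 k2, k1]⟩
      · rintro ⟨k1, k2⟩
        exact ⟨k1, S.eq_iff'.1 (by rw [k1, k2])⟩
    have i3 : S.ann (h + p) ⊓ S.ann (h + p + y) = S.ann (h + p) ⊓ S.ann y := by
      ext v
      simp only [Submodule.mem_inf, S.mem_ann]
      constructor
      · rintro ⟨k1, k2⟩
        exact ⟨k1, by rw [← S.eq_iff'.2 k2, k1]⟩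
      · rintro ⟨k1, k2⟩
        exact ⟨k1, S.eq_iff'.1 (by rw [k1, k2])⟩
    have d1 := Submodule.finrank_sup_add_finrank_inf_eq (S.ann p) (S.ann (p + y))
    have d2 := Submodule.finrank_sup_add_finrank_inf_eq (S.ann h) (S.ann (h + y))
    have d3 := Submodule.finrank_sup_add_finrank_inf_eq (S.ann (h + p)) (S.ann (h + p + y))
    have d4 := Submodule.finrank_sup_add_finrank_inf_eq Jh Jw
    rw [h2, finrank_top] at d4
    rw [← hJp, i1] at d1
    rw [← hJh, i2] at d2
    rw [← hJw, i3] at d3
    have d5 := Submodule.finrank_mono h1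
    have d6 := Submodule.finrank_sup_add_finrank_inf_eq (S.ann p) (S.ann y)
    have d7 := Submodule.finrank_sup_add_finrank_inf_eq (S.ann h) (S.ann y)
    have d8 := Submodule.finrank_sup_add_finrank_inf_eq (S.ann (h + p)) (S.ann y)
    have d9 := Submodule.finrank_sup_add_finrank_inf_eq (S.ann h ⊔ S.ann y)
      (S.ann (h + p) ⊔ S.ann y)
    have i4 : (S.ann h ⊔ S.ann y) ⊔ (S.ann (h + p) ⊔ S.ann y) = ⊤ := by
      rw [eq_top_iff, ← hsup]
      exact sup_le_sup le_sup_left le_sup_left
    rw [i4, finrank_top] at d9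
    have d10 : Module.finrank (ZMod 2) (S.ann p ⊔ S.ann y : Submodule (ZMod 2) V) ≤
        Module.finrank (ZMod 2) ((S.ann h ⊔ S.ann y) ⊓ (S.ann (h + p) ⊔ S.ann y) :
          Submodule (ZMod 2) V) := by
      apply Submodule.finrank_mono
      apply le_inf
      · exact sup_le_sup hle le_rfl
      · exact sup_le_sup hle' le_rfl
    unfold HH at hh
    rw [h0] at hh
    unfold dd at hh hsh
    have s1 : h + p + y = y + h + p := by abel
    have s2 : h + y = y + h := by abel
    have s3 : p + y = y + p := by abel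
    rw [s1] at d3
    rw [s2] at d2
    rw [s3] at d1
    have e : Module.finrank (ZMod 2) (Jh ⊓ Jw : Submodule (ZMod 2) V) =
        Module.finrank (ZMod 2) Jp := by omega
    rw [← Submodule.eq_of_le_of_finrank_eq h1 e]
    exact inf_le_left
  exact (S.rel_iff).2 (key ((S.rel_iff).1 hu))

end ETC
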