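import Pool.Agent.ETC.QSat2

/-!
Diagonal forms over a quaternionic structure: isometry, representation, Witt cancellation.
-/

set_option linter.unusedSectionVars false

namespace ETC

open Pool.Agent.Helper58.PLine (QData)

variable {V Q : Type} [AddCommGroup V] [Module (ZMod 2) V] {S : QData V Q}

/-- abelian group identities of exponent two -/
theorem two_smul_eq (x : V) : (2 : ℤ) • x = 0 := by
  rw [two_smul, ZModModule.add_self]

/-- values of the form `⟨0, s⟩` (additive notation: `⟨1, s⟩`) -/
def NN (S : QData V Q) (s : V) : Submodule (ZMod 2) V := S.ann (s + S.e)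

theorem mem_NN {s x : V} : x ∈ NN S s ↔ S.q x (s + S.e) = S.z := by
  rw [S.symm]; rfl

theorem mem_NN' {s x : V} : x ∈ NN S s ↔ S.q (s + S.e) x = S.z := Iff.rfl

/-- binary isometry -/
def Bin (S : QData V Q) (a b c d : V) : Prop := a + b = c + d ∧ a + c ∈ NN S (a + b)

theorem q_self_add (x s : V) : S.q x (x + s) = S.q x (s + S.e) := by
  rw [S.eq_iff]
  have : x + s + (s + S.e) = x + S.e := by
    rw [add_assoc, ← add_assoc s, ZModModule.add_self, zero_add]
  rw [this]
  exact S.self_mem x

theorem self_mem_NN (s : V) : s ∈ NN S s := by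
  rw [mem_NN]; exact S.diag s

theorem bin_iff {a b c d : V} : Bin S a b c d ↔ a + b = c + d ∧ S.q a b = S.q c d := by
  unfold Bin
  refine and_congr_right fun h => ?_
  have e1 : S.q a b = S.q a (a + b + S.e) := by
    have := q_self_add (S := S) a (a + b)
    rwa [add_add_self] at this
  have e2 : S.q c d = S.q c (a + b + S.e) := by
    have := q_self_add (S := S) c (c + d)
    rwa [add_add_self, ← h] at this
  rw [e1, e2, S.eq_iff', S.mem_ann_comm]
  exact Iff.rfl

theorem Bin.symm {a b c d : V} (h : Bin S a b c d) : Bin S c d a b := by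
  rw [bin_iff] at h ⊢
  exact ⟨h.1.symm, h.2.symm⟩

theorem Bin.swap (a b : V) : Bin S a b b a := by
  rw [bin_iff]; exact ⟨add_comm a b, S.symm a b⟩

theorem Bin.refl (a b : V) : Bin S a b a b := by
  rw [bin_iff]; exact ⟨rfl, rfl⟩

theorem Bin.trans {a b c d u v : V} (h : Bin S a b c d) (h' : Bin S c d u v) :
    Bin S a b u v := by
  rw [bin_iff] at h h' ⊢
  exact ⟨h.1.trans h'.1, h.2.trans h'.2⟩

theorem Bin.translate {a b c d : V} (h : Bin S a b c d) (t : V) :
    Bin S (t + a) (t + b) (t + c) (t + d) := by
  obtain ⟨h1, h2⟩ := h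
  have e : ∀ u v : V, t + u + (t + v) = u + v := by
    intro u v
    rw [add_add_add_comm, ZModModule.add_self, zero_add]
  exact ⟨by rw [e, e, h1], by rw [e, e]; exact h2⟩

/-- isometry of diagonal forms -/
inductive Isom (S : QData V Q) : List V → List V → Prop
  | refl (l : List V) : Isom S l l
  | head {a b c d : V} (l : List V) (h : Bin S a b c d) : Isom S (a :: b :: l) (c :: d :: l)
  | cons (a : V) {l l' : List V} (h : Isom S l l') : Isom S (a :: l) (a :: l')
  | trans {l₁ l₂ l₃ : List V} (h : Isom S l₁ l₂) (h' : Isom S l₂ l₃) : Isom S l₁ l₃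

theorem Isom.symm {l l' : List V} (h : Isom S l l') : Isom S l' l := by
  induction h with
  | refl l => exact Isom.refl l
  | head l h => exact Isom.head l h.symm
  | cons a _ ih => exact Isom.cons a ih
  | trans _ _ ih ih' => exact ih'.trans ih

theorem Isom.length {l l' : List V} (h : Isom S l l') : l.length = l'.length := by
  induction h with
  | refl l => rfl
  | head l h => rfl
  | cons a _ ih => simp [ih]
  | trans _ _ ih ih' => exact ih.trans ih'

theorem Isom.swap (a b : V) (l : List V) : Isom S (a :: b :: l) (b :: a :: l) :=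
  Isom.head l (Bin.swap a b)

theorem Isom.of_perm {l l' : List V} (h : l.Perm l') : Isom S l l' := by
  induction h with
  | nil => exact Isom.refl _
  | cons a _ ih => exact Isom.cons a ih
  | swap a b l => exact Isom.swap b a l
  | trans _ _ ih ih' => exact ih.trans ih'

theorem Isom.append_left (k : List V) {l l' : List V} (h : Isom S l l') :
    Isom S (k ++ l) (k ++ l') := by
  induction k with
  | nil => exact h
  | cons a k ih => exact Isom.cons a ih

theorem Isom.append_right (k : List V) {l l' : List V} (h : Isom S l l') :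
    Isom S (l ++ k) (l' ++ k) := by
  refine (Isom.of_perm List.perm_append_comm).trans ((h.append_left k).trans ?_)
  exact Isom.of_perm List.perm_append_comm

theorem Isom.append {l l' k k' : List V} (h : Isom S l l') (h' : Isom S k k') :
    Isom S (l ++ k) (l' ++ k') := (h.append_right k).trans (h'.append_left l')

theorem Isom.translate (t : V) {l l' : List V} (h : Isom S l l') :
    Isom S (l.map (t + ·)) (l'.map (t + ·)) := by
  induction h with
  | refl l => exact Isom.refl _
  | head l h => exact Isom.head _ (h.translate t)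
  | cons a _ ih => exact Isom.cons _ ih
  | trans _ _ ih ih' => exact ih.trans ih'

/-- `f` represents `x` with complement `g` -/
inductive Rep (S : QData V Q) : List V → V → List V → Prop
  | one (a : V) : Rep S [a] a []
  | cons {a y x : V} {l g : List V} (h : Rep S l y g) (h' : a + x ∈ NN S (a + y)) :
      Rep S (a :: l) x ((a + y + x) :: g)

theorem Rep.inv {a x : V} {m g : List V} (h : Rep S (a :: m) x g) :
    (m = [] ∧ x = a ∧ g = []) ∨
      ∃ y g', Rep S m y g' ∧ a + x ∈ NN S (a + y) ∧ g = (a + y + x) :: g' := by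
  cases h with
  | one _ => exact Or.inl ⟨rfl, rfl, rfl⟩
  | @cons _ y _ _ g' h1 h2 => exact Or.inr ⟨y, g', h1, h2, rfl⟩

theorem Rep.bin {a y x : V} (h' : a + x ∈ NN S (a + y)) : Bin S a y x (a + y + x) := by
  refine ⟨?_, h'⟩
  rw [add_comm x, add_add_self']

theorem Rep.isom {l g : List V} {x : V} (h : Rep S l x g) : Isom S l (x :: g) := by
  induction h with
  | one a => exact Isom.refl _
  | @cons a y x l g h h' ih =>
    exact (Isom.cons a ih).trans (Isom.head g (Rep.bin h'))

theorem Rep.exists (a : V) (l : List V) : ∃ x g, Rep S (a :: l) x g := by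
  induction l generalizing a with
  | nil => exact ⟨a, [], Rep.one a⟩
  | cons b l ih =>
    obtain ⟨x, g, h⟩ := ih b
    exact ⟨a, (a + x + a) :: g, Rep.cons h (by rw [ZModModule.add_self]; exact zero_mem _)⟩

/-- the first entry is represented -/
theorem Rep.first (a : V) (l : List V) : ∃ g, Rep S (a :: l) a g ∧ Isom S l g := by
  cases l with
  | nil => exact ⟨[], Rep.one a, Isom.refl _⟩
  | cons b l =>
    obtain ⟨x, g, h⟩ := Rep.exists (S := S) b l
    refine ⟨(a + x + a) :: g, Rep.cons h (by rw [ZModModule.add_self]; exact zero_mem _), ?_⟩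
    rw [show a + x + a = x by rw [add_comm a, add_add_self']]
    exact h.isom

/-! ### ternary forms -/

/-- `b + y ∈ N (b + v)` etc. -/
def Tern (S : QData V Q) (a b v x u d : V) : Prop :=
  ∃ y, b + y ∈ NN S (b + v) ∧ a + x ∈ NN S (a + y) ∧ u = a + y + x ∧ d = b + v + y

theorem Tern.swap23 {a b v x u d : V} (h : Tern S a b v x u d) : Tern S a v b x u d := by
  obtain ⟨y, h1, h2, h3, h4⟩ := h
  refine ⟨y, ?_, h2, h3, by rw [h4, add_comm b v]⟩
  rw [add_comm v b]
  have := add_mem h1 (self_mem_NN (S := S) (b + v))
  have e : b + y + (b + v) = v + y := by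
    rw [show b + y + (b + v) = (b + b) + (v + y) by abel, ZModModule.add_self, zero_add]
  rwa [e] at this

/-- the key step, where linkage is used -/
theorem tern_aux {a b v y : V} (h1 : b + y ∈ NN S (b + v)) (h2 : a ∈ NN S (a + y)) :
    ∃ y', a + y' ∈ NN S (a + v) ∧ b ∈ NN S (b + y') ∧ a + b + y + y' ∈ NN S (a + b + v) := by
  -- commuting relations
  have c1 : S.q a y = S.z := by
    have h3 : S.q a (a + y + S.e) = S.z := mem_NN.1 h2
    have := q_self_add (S := S) a (a + y)
    rw [add_add_self] at this
    rw [this, h3]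
  have c2 : S.q y (b + v + S.e) = S.q b v := by
    have h3 : S.q b (b + v + S.e) = S.q y (b + v + S.e) := by
      rw [S.eq_iff', S.mem_ann_comm]
      exact h1
    have := q_self_add (S := S) b (b + v)
    rw [add_add_self] at this
    rw [← h3, ← this]
  set d := a + b + v + S.e with hd
  have c3 : S.q d y = S.q b v := by
    rw [← c2, S.symm, S.eq_iff]
    have : d + (b + v + S.e) = a := by
      rw [hd, show a + b + v + S.e + (b + v + S.e) = a + ((b + v + S.e) + (b + v + S.e)) by abel,
        ZModModule.add_self, add_zero]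
    rw [this, S.mem_ann_comm]
    exact c1
  -- q (a, v) is a value of `d`
  have c4 : S.q v (a + b) = S.q d v := by
    have h3 : S.q v (v + (a + b)) = S.q v (a + b + S.e) := q_self_add v (a + b)
    have h4 : S.q v (v + (a + b + S.e)) = S.q v (a + b + S.e + S.e) := q_self_add v _
    rw [add_add_self'] at h4
    rw [← h4, S.symm d, hd]
    congr 1
    abel
  have c5 : S.q v a = S.q d (y + v) := by
    have h3 : S.q v b = S.q d y := by rw [S.symm, c3]
    have := add_common h3 c4
    rw [show b + (a + b) = a + (b + b) by abel, ZModModule.add_self, add_zero] at this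
    exact this
  have c6 : S.q (b + d) a = S.q v a := by
    have h3 : S.q a (a + (v + S.e)) = S.q a (v + S.e + S.e) := q_self_add a _
    rw [add_add_self'] at h3
    rw [S.symm v, ← h3, S.symm (b + d), hd]
    congr 1
    rw [show b + (a + b + v + S.e) = (b + b) + (a + (v + S.e)) by abel, ZModModule.add_self,
      zero_add]
  obtain ⟨y', hy1, hy2⟩ := S.link (b + d) a d (y + v) (by rw [c6, c5])
  have c7 : S.q b y' = S.z := by
    have h3 : S.q (b + d) y' = S.q d y' := by rw [← hy1, ← hy2, c6, c5]
    rw [S.eq_iff', show b + d + d = b + (d + d) by abel, ZModModule.add_self, add_zero] at h3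
    exact h3
  have hbd : b + d = a + v + S.e := by
    rw [hd, show b + (a + b + v + S.e) = (b + b) + (a + v + S.e) by abel, ZModModule.add_self,
      zero_add]
  have c8 : a + y' ∈ S.ann (b + d) := by
    rw [← S.eq_iff, hy1]
  refine ⟨y', ?_, ?_, ?_⟩
  · unfold NN
    rw [← hbd]
    exact c8
  · rw [mem_NN]
    have := q_self_add (S := S) b (b + y')
    rw [add_add_self] at this
    rw [← this, c7]
  · -- both `a + y'` and `b + y` pair with `d` to `q (a, b)`
    unfold NN
    have k1 : S.q d (a + y') = S.q b a := by
      have h3 : S.q (b + d) (a + y') = S.z := c8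
      have h4 : S.q d (a + y') = S.q b (a + y') := by
        rw [S.eq_iff', add_comm d b]
        exact h3
      rw [h4, S.eq_iff]
      have : a + y' + a = y' := by rw [add_comm a, add_add_self']
      rw [this]
      exact c7
    have k2 : S.q d (b + y) = S.q a b := by
      have h3 : S.q (b + v + S.e) (b + y) = S.z := mem_NN'.1 h1
      have h4 : S.q d (b + y) = S.q a (b + y) := by
        rw [S.eq_iff']
        have : d + a = b + v + S.e := by
          rw [hd, show a + b + v + S.e + a = (a + a) + (b + v + S.e) by abel,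
            ZModModule.add_self, zero_add]
        rw [this]
        exact h3
      rw [h4, S.eq_iff]
      have : b + y + b = y := by rw [add_comm b, add_add_self']
      rw [this]
      exact c1
    have h5 : S.q d (a + y') = S.q d (b + y) := by rw [k1, k2, S.symm]
    rw [S.eq_iff] at h5
    have : a + y' + (b + y) = a + b + y + y' := by abel
    rwa [this] at h5

theorem Tern.swap12 {a b v x u d : V} (h : Tern S a b v x u d) :
    ∃ u' d', Tern S b a v x u' d' ∧ Bin S u d u' d' := by
  obtain ⟨y, h1, h2, rfl, rfl⟩ := h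
  have e : ∀ s t : V, (s + x) + (t + x) = s + t := by
    intro s t
    rw [add_add_add_comm, ZModModule.add_self, add_zero]
  obtain ⟨y', k1, k2, k3⟩ := tern_aux (S := S) (a := a + x) (b := b + x) (v := v + x) (y := y + x)
    (by rw [e, e]; exact h1) (by rw [e]; exact h2)
  refine ⟨b + (y' + x) + x, a + v + (y' + x), ⟨y' + x, ?_, ?_, rfl, rfl⟩, ?_, ?_⟩
  · rw [e] at k1
    have : a + x + y' = a + (y' + x) := by abel
    rwa [this] at k1
  · have : b + x + y' = b + (y' + x) := by abel
    rwa [this] at k2
  · rw [show a + y + x + (b + v + y) = (a + b + v + x) + (y + y) by abel,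
      show b + (y' + x) + x + (a + v + (y' + x)) = (a + b + v + x) + (y' + y') + (x + x) by abel,
      ZModModule.add_self, ZModModule.add_self, ZModModule.add_self, add_zero, add_zero]
  · rw [show a + y + x + (b + v + y) = (a + b + v + x) + (y + y) by abel,
      ZModModule.add_self, add_zero]
    rw [show a + x + (b + x) + (v + x) = (a + b + v + x) + (x + x) by abel,
      ZModModule.add_self, add_zero] at k3
    rw [show a + x + (b + x) + (y + x) + y' = (a + b + y + y' + x) + (x + x) by abel,
      ZModModule.add_self, add_zero] at k3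
    rw [show a + y + x + (b + (y' + x) + x) = (a + b + y + y' + x) + (x + x) by abel,
      ZModModule.add_self, add_zero]
    exact k3

/-- a binary move in the last two entries -/
theorem Tern.move {a b v c w x u d : V} (h : Tern S a b v x u d) (hb : Bin S b v c w) :
    Tern S a c w x u d := by
  obtain ⟨y, h1, h2, h3, h4⟩ := h
  obtain ⟨k1, k2⟩ := hb
  refine ⟨y, ?_, h2, h3, by rw [h4, k1]⟩
  rw [← k1]
  have := add_mem h1 k2
  rwa [show b + y + (b + c) = (b + b) + (c + y) by abel, ZModModule.add_self, zero_add] at this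

/-- a binary move in the first two entries -/
theorem Tern.move12 {a b v c w x u d : V} (h : Tern S a b v x u d) (hb : Bin S a b c w) :
    ∃ u' d', Tern S c w v x u' d' ∧ Bin S u d u' d' := by
  obtain ⟨u1, d1, h1, b1⟩ := h.swap23.swap12
  -- `h1 : Tern v a b x u1 d1`
  obtain ⟨u2, d2, h2, b2⟩ := (h1.move hb).swap12
  exact ⟨u2, d2, h2.swap23, b1.trans b2⟩

/-! ### invariance of representations -/

theorem Rep.of_isom {l l' g : List V} {x : V} (hl : Isom S l l') (h : Rep S l x g) :
    ∃ g', Rep S l' x g' ∧ Isom S g g' := by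
  induction hl generalizing x g with
  | refl l => exact ⟨g, h, Isom.refl g⟩
  | @head a b c d l hb =>
    cases h with
    | @cons _ y _ _ g' h1 h2 =>
      cases h1 with
      | one _ =>
        refine ⟨[c + d + x], Rep.cons (Rep.one d) ?_, ?_⟩
        · obtain ⟨k1, k2⟩ := hb
          rw [← k1]
          have := add_mem h2 k2
          rwa [show a + x + (a + c) = (a + a) + (c + x) by abel, ZModModule.add_self,
            zero_add] at this
        · rw [hb.1]; exact Isom.refl _
      | @cons _ v _ _ k h3 h4 =>
        have ht : Tern S a b v x (a + y + x) (b + v + y) := ⟨y, h4, h2, rfl, rfl⟩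
        obtain ⟨u', d', ⟨y', t1, t2, rfl, rfl⟩, hb'⟩ := ht.move12 hb
        exact ⟨(c + y' + x) :: (d + v + y') :: k, Rep.cons (Rep.cons h3 t1) t2, Isom.head k hb'⟩
  | @cons a l l' hl ih =>
    cases h with
    | one _ =>
      have := hl.length
      rw [List.length_nil] at this
      have : l' = [] := List.length_eq_zero_iff.1 this.symm
      subst this
      exact ⟨[], Rep.one a, Isom.refl _⟩
    | @cons _ y _ _ g' h1 h2 =>
      obtain ⟨g2, k1, k2⟩ := ih h1
      exact ⟨(a + y + x) :: g2, Rep.cons k1 h2, Isom.cons _ k2⟩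
  | trans _ _ ih ih' =>
    obtain ⟨g1, k1, k2⟩ := ih h
    obtain ⟨g2, k3, k4⟩ := ih' k1
    exact ⟨g2, k3, k2.trans k4⟩

theorem Rep.unique {l g g' : List V} {x : V} (h : Rep S l x g) (h' : Rep S l x g') :
    Isom S g g' := by
  cases h with
  | one _ =>
    cases h' with
    | one _ => exact Isom.refl _
    | cons h1 _ => cases h1
  | @cons a y _ l k h1 h2 =>
    cases h' with
    | one _ => cases h1
    | @cons _ y' _ _ k' h3 h4 =>
      obtain ⟨g3, r1, r2⟩ := Rep.of_isom h1.isom h3
      cases r1 with
      | one _ => exact Isom.cons _ r2.symm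
      | @cons _ u _ _ h h5 h6 =>
        refine (Isom.cons _ h5.isom).trans (Isom.trans ?_ (Isom.cons _ r2.symm))
        apply Isom.head
        constructor
        · rw [show a + y + x + u = (a + x + (y + u)) by abel,
            show a + y' + x + (y + u + y') = (a + x + (y + u)) + (y' + y') by abel,
            ZModModule.add_self, add_zero]
        · rw [show a + y + x + (a + y' + x) = (y + y') + (a + a) + (x + x) by abel,
            ZModModule.add_self, ZModModule.add_self, add_zero, add_zero]
          -- `y + y'` commutes with `a + x` and with `y + u + e`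
          have e1 : S.q (a + x) (y + y') = S.z := by
            have k1 : a + y + S.e ∈ S.ann (a + x) := mem_NN.1 h2
            have k2 : a + y' + S.e ∈ S.ann (a + x) := mem_NN.1 h4
            have := add_mem k1 k2
            rw [show a + y + S.e + (a + y' + S.e) = (y + y') + (a + a) + (S.e + S.e) by abel,
              ZModModule.add_self, ZModModule.add_self, add_zero, add_zero] at this
            exact this
          have e2 : S.q (y + y') (y + u + S.e) = S.z := mem_NN.1 h6
          rw [mem_NN, show a + y + x + u + S.e = (y + u + S.e) + (a + x) by abel, ← S.add, e2,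
            S.symm, e1]

/-- **Witt cancellation.** -/
theorem Isom.cancel {a : V} {l l' : List V} (h : Isom S (a :: l) (a :: l')) : Isom S l l' := by
  obtain ⟨g, h1, h2⟩ := Rep.first (S := S) a l
  obtain ⟨g', h1', h2'⟩ := Rep.first (S := S) a l'
  obtain ⟨g2, k1, k2⟩ := Rep.of_isom h h1
  exact h2.trans (k2.trans ((Rep.unique k1 h1').trans h2'.symm))

theorem Isom.cancel_append (k : List V) {l l' : List V} (h : Isom S (k ++ l) (k ++ l')) :
    Isom S l l' := by
  induction k with
  | nil => exact h
  | cons a k ih => exact ih h.cancel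

theorem Isom.cancel_append_right (k : List V) {l l' : List V}
    (h : Isom S (l ++ k) (l' ++ k)) : Isom S l l' := by
  apply Isom.cancel_append k
  exact (Isom.of_perm List.perm_append_comm).trans
    (h.trans (Isom.of_perm List.perm_append_comm))

/-- `x` is represented by `l` -/
def Dm (S : QData V Q) (l : List V) (x : V) : Prop := ∃ g, Isom S l (x :: g)

theorem Dm.rep {l : List V} {x : V} (h : Dm S l x) : ∃ g, Rep S l x g := by
  obtain ⟨g, hg⟩ := h
  obtain ⟨g1, h1, h2⟩ := Rep.first (S := S) x g
  obtain ⟨g2, k1, k2⟩ := Rep.of_isom hg.symm h1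
  exact ⟨g2, k1⟩

theorem Rep.dm {l g : List V} {x : V} (h : Rep S l x g) : Dm S l x := ⟨g, h.isom⟩

theorem Dm.of_isom {l l' : List V} {x : V} (hl : Isom S l l') (h : Dm S l x) : Dm S l' x := by
  obtain ⟨g, hg⟩ := h
  exact ⟨g, hl.symm.trans hg⟩

theorem dm_pair {a b x : V} : Dm S [a, b] x ↔ a + x ∈ NN S (a + b) := by
  constructor
  · intro h
    obtain ⟨g, hg⟩ := h.rep
    cases hg with
    | @cons _ y _ _ g h1 h2 =>
      cases h1 with
      | one _ => exact h2
      | cons h3 _ => cases h3
  · intro h
    exact (Rep.cons (Rep.one b) h).dm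

theorem dm_single {a x : V} : Dm S [a] x ↔ x = a := by
  constructor
  · intro h
    obtain ⟨g, hg⟩ := h.rep
    cases hg with
    | one _ => rfl
    | cons h1 _ => cases h1
  · rintro rfl; exact ⟨[], Isom.refl _⟩

theorem not_dm_nil {x : V} : ¬ Dm S [] x := by
  intro h
  obtain ⟨g, hg⟩ := h.rep
  cases hg

/-- representation by an orthogonal sum -/
theorem dm_append {l k : List V} {x : V} (h : Dm S (l ++ k) x) (hl : l ≠ []) (hk : k ≠ []) :
    ∃ y z, Dm S l y ∧ Dm S k z ∧ Dm S [y, z] x := by
  obtain ⟨g, hg⟩ := h.rep
  induction l generalizing x g with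
  | nil => exact absurd rfl hl
  | cons a l ih =>
    rw [List.cons_append] at hg
    rcases hg.inv with ⟨h0, -, -⟩ | ⟨y, g', h1, h2, -⟩
    · exact absurd (List.append_eq_nil_iff.1 h0).2 hk
    · by_cases hl0 : l = []
      · subst hl0
        rw [List.nil_append] at h1
        exact ⟨a, y, dm_single.2 rfl, h1.dm, dm_pair.2 h2⟩
      · obtain ⟨y1, z1, k1, k2, k3⟩ := ih h1.dm hl0 _ h1
        -- `x ∈ D (a, y)`, `y ∈ D (y1, z1)`
        have ht : Tern S a y1 z1 x (a + y + x) (y1 + z1 + y) := ⟨y, dm_pair.1 k3, h2, rfl, rfl⟩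
        obtain ⟨u1, d1, ⟨y2, t1, t2, -, -⟩, -⟩ := ht.swap23.swap12
        -- `Tern z1 a y1 x`
        obtain ⟨g1, hg1⟩ := k1
        refine ⟨y2, z1, ?_, k2, ?_⟩
        · refine Dm.of_isom (Isom.cons a hg1.symm) ?_
          obtain ⟨r, hr⟩ : Dm S [a, y1] y2 := dm_pair.2 t1
          exact ⟨r ++ g1, (hr.append_right g1)⟩
        · refine Dm.of_isom (Isom.swap z1 y2 []) (dm_pair.2 t2)

end ETC
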