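import Pool.Agent.ETC.Witt1

/-!
The Witt ring of a quaternionic structure, and its faithfulness on diagonal forms.
-/

set_option linter.unusedSectionVars false

namespace ETC

open Pool.Agent.Helper58.PLine (QData)

variable {V Q : Type} [AddCommGroup V] [Module (ZMod 2) V] {S : QData V Q}

/-- sums of hyperbolic planes -/
def hyp (S : QData V Q) : ℕ → List V
  | 0 => []
  | m + 1 => 0 :: S.e :: hyp S m

theorem hyp_add (m n : ℕ) : hyp S (m + n) = hyp S m ++ hyp S n := by
  induction m with
  | zero => simp [hyp]
  | succ m ih =>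
    rw [show m + 1 + n = (m + n) + 1 by omega]
    simp [hyp, ih]

theorem hyp_length (m : ℕ) : (hyp S m).length = 2 * m := by
  induction m with
  | zero => rfl
  | succ m ih => simp [hyp, ih]; omega

theorem bin_hyp (t : V) : Bin S t (t + S.e) 0 S.e := by
  rw [bin_iff]
  constructor
  · rw [add_add_self, zero_add]
  · rw [S.diag, q_zero_left]

theorem hyp_translate (t : V) (m : ℕ) : Isom S ((hyp S m).map (t + ·)) (hyp S m) := by
  induction m with
  | zero => exact Isom.refl _
  | succ m ih =>
    simp only [hyp, List.map_cons, add_zero]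
    exact (Isom.head _ (bin_hyp t)).trans (Isom.cons _ (Isom.cons _ ih))

/-- Witt equivalence -/
def WEq (S : QData V Q) (l l' : List V) : Prop := ∃ m n, Isom S (l ++ hyp S m) (l' ++ hyp S n)

theorem WEq.of_isom {l l' : List V} (h : Isom S l l') : WEq S l l' :=
  ⟨0, 0, h.append_right _⟩

theorem WEq.symm {l l' : List V} (h : WEq S l l') : WEq S l' l := by
  obtain ⟨m, n, h⟩ := h
  exact ⟨n, m, h.symm⟩

theorem WEq.trans {l l' l'' : List V} (h : WEq S l l') (h' : WEq S l' l'') : WEq S l l'' := by
  obtain ⟨m, n, h⟩ := h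
  obtain ⟨m', n', h'⟩ := h'
  refine ⟨m + m', n' + n, ?_⟩
  rw [hyp_add, hyp_add, ← List.append_assoc, ← List.append_assoc]
  refine (h.append_right _).trans ?_
  rw [List.append_assoc, List.append_assoc]
  refine ((Isom.of_perm List.perm_append_comm).append_left l').trans ?_
  rw [← List.append_assoc, ← List.append_assoc]
  exact h'.append_right _

theorem WEq.append {l l' k k' : List V} (h : WEq S l l') (h' : WEq S k k') :
    WEq S (l ++ k) (l' ++ k') := by
  obtain ⟨m, n, h⟩ := h
  obtain ⟨m', n', h'⟩ := h'
  refine ⟨m + m', n + n', ?_⟩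
  have key : ∀ (u v p q : List V), Isom S (u ++ v ++ (p ++ q)) ((u ++ p) ++ (v ++ q)) := by
    intro u v p q
    apply Isom.of_perm
    rw [List.append_assoc, List.append_assoc]
    apply List.Perm.append_left
    rw [← List.append_assoc, ← List.append_assoc]
    exact List.perm_append_comm.append_right _
  rw [hyp_add, hyp_add]
  exact (key _ _ _ _).trans ((h.append h').trans (key _ _ _ _).symm)

theorem WEq.cancel_right {k l l' : List V} (h : WEq S (l ++ k) (l' ++ k)) : WEq S l l' := by
  obtain ⟨m, n, h⟩ := h
  refine ⟨m, n, ?_⟩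
  apply Isom.cancel_append_right k
  have key : ∀ (u p : List V), Isom S (u ++ p ++ k) (u ++ k ++ p) := by
    intro u p
    rw [List.append_assoc, List.append_assoc]
    exact (Isom.of_perm List.perm_append_comm).append_left _
  exact (key _ _).trans (h.trans (key _ _).symm)

theorem WEq.translate (t : V) {l l' : List V} (h : WEq S l l') :
    WEq S (l.map (t + ·)) (l'.map (t + ·)) := by
  obtain ⟨m, n, h⟩ := h
  refine ⟨m, n, ?_⟩
  have := h.translate t
  rw [List.map_append, List.map_append] at this
  exact ((hyp_translate t m).symm.append_left _).trans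
    (this.trans ((hyp_translate t n).append_left _))

theorem WEq.isom {l l' : List V} (h : WEq S l l') (hl : l.length = l'.length) : Isom S l l' := by
  obtain ⟨m, n, h⟩ := h
  have := h.length
  rw [List.length_append, List.length_append, hyp_length, hyp_length] at this
  have hmn : m = n := by omega
  subst hmn
  exact h.cancel_append_right

/-- a Witt equivalence lowering the dimension splits off hyperbolic planes -/
theorem WEq.isotropic {l l' : List V} (h : WEq S l l') (hl : l'.length < l.length) :
    ∃ k, Isom S l (0 :: S.e :: k) := by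
  obtain ⟨m, n, h⟩ := h
  have := h.length
  rw [List.length_append, List.length_append, hyp_length, hyp_length] at this
  obtain ⟨r, rfl⟩ : ∃ r, n = m + 1 + r := ⟨n - m - 1, by omega⟩
  rw [show m + 1 + r = (r + 1) + m by omega, hyp_add, ← List.append_assoc] at h
  refine ⟨l' ++ hyp S r, h.cancel_append_right.trans ?_⟩
  exact Isom.of_perm List.perm_append_comm |>.trans
    (Isom.cons _ (Isom.cons _ (Isom.of_perm List.perm_append_comm)))

/-! ### the ring -/

/-- the class of a form in the group ring -/
noncomputable def cl (l : List V) : AddMonoidAlgebra ℤ V :=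
  (l.map (fun v => AddMonoidAlgebra.single v (1 : ℤ))).sum

theorem cl_nil : cl ([] : List V) = 0 := rfl

theorem cl_cons (a : V) (l : List V) : cl (a :: l) = AddMonoidAlgebra.single a 1 + cl l := by
  simp [cl]

theorem cl_append (l k : List V) : cl (l ++ k) = cl l + cl k := by
  simp [cl]

theorem cl_translate (t : V) (l : List V) :
    AddMonoidAlgebra.single t (1 : ℤ) * cl l = cl (l.map (t + ·)) := by
  induction l with
  | nil => simp [cl]
  | cons a l ih =>
    rw [cl_cons, mul_add, ih, List.map_cons, cl_cons, AddMonoidAlgebra.single_mul_single, mul_one]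

theorem cl_apply (l : List V) [DecidableEq V] (v : V) : (cl l).coeff v = (l.count v : ℤ) := by
  induction l with
  | nil => simp [cl]
  | cons a l ih =>
    rw [cl_cons, List.count_cons, AddMonoidAlgebra.coeff_add, Finsupp.add_apply, ih,
      AddMonoidAlgebra.coeff_single]
    by_cases h : a = v
    · subst h
      simp
      ring
    · simp [h]

theorem perm_of_cl {l l' : List V} (h : cl l = cl l') : l.Perm l' := by
  classical
  rw [List.perm_iff_count]
  intro v
  have := congrArg (fun f : AddMonoidAlgebra ℤ V => f.coeff v) h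
  simp only [cl_apply] at this
  exact_mod_cast this

/-- elements of the group ring which are differences of Witt equivalent forms -/
def PP (S : QData V Q) : AddSubgroup (AddMonoidAlgebra ℤ V) where
  carrier := {z | ∃ h k, z = cl h - cl k ∧ WEq S h k}
  add_mem' := by
    rintro _ _ ⟨h, k, rfl, h1⟩ ⟨h', k', rfl, h1'⟩
    refine ⟨h ++ h', k ++ k', ?_, h1.append h1'⟩
    rw [cl_append, cl_append]
    abel
  zero_mem' := ⟨[], [], by simp, WEq.of_isom (Isom.refl _)⟩
  neg_mem' := by
    rintro _ ⟨h, k, rfl, h1⟩
    exact ⟨k, h, by abel, h1.symm⟩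

theorem PP_single_mul {z : AddMonoidAlgebra ℤ V} (hz : z ∈ PP S) (t : V) :
    AddMonoidAlgebra.single t (1 : ℤ) * z ∈ PP S := by
  obtain ⟨h, k, rfl, h1⟩ := hz
  refine ⟨h.map (t + ·), k.map (t + ·), ?_, h1.translate t⟩
  rw [mul_sub, cl_translate, cl_translate]

theorem PP_mul {z : AddMonoidAlgebra ℤ V} (hz : z ∈ PP S) (r : AddMonoidAlgebra ℤ V) :
    r * z ∈ PP S := by
  induction r using AddMonoidAlgebra.induction_on with
  | of t =>
    exact PP_single_mul hz (Multiplicative.toAdd t)
  | add f g hf hg =>
    rw [add_mul]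
    exact add_mem hf hg
  | smul n f hf =>
    rw [smul_mul_assoc]
    exact zsmul_mem hf n

/-- the defining ideal of the Witt ring -/
noncomputable def JJ (S : QData V Q) : Ideal (AddMonoidAlgebra ℤ V) :=
  Ideal.span {z | ∃ h k, z = cl h - cl k ∧ WEq S h k}

theorem mem_JJ {z : AddMonoidAlgebra ℤ V} : z ∈ JJ S ↔ z ∈ PP S := by
  constructor
  · intro h
    induction h using Submodule.span_induction with
    | mem x hx => exact hx
    | zero => exact zero_mem _
    | add x y _ _ hx hy => exact add_mem hx hy
    | smul a x _ hx => exact PP_mul hx a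
  · intro h
    exact Ideal.subset_span h

/-- the Witt ring -/
abbrev WR (S : QData V Q) : Type := AddMonoidAlgebra ℤ V ⧸ JJ S

/-- the class of an element -/
noncomputable def ph (S : QData V Q) (v : V) : WR S :=
  Ideal.Quotient.mk (JJ S) (AddMonoidAlgebra.single v 1)

/-- the class of a form -/
noncomputable def fm (S : QData V Q) (l : List V) : WR S := (l.map (ph S)).sum

theorem fm_eq (l : List V) : fm S l = Ideal.Quotient.mk (JJ S) (cl l) := by
  induction l with
  | nil => simp [fm, cl]
  | cons a l ih =>
    rw [cl_cons, map_add, ← ih]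
    simp [fm, ph]

theorem fm_nil : fm S [] = 0 := rfl

theorem fm_cons (a : V) (l : List V) : fm S (a :: l) = ph S a + fm S l := by
  simp [fm]

theorem fm_append (l k : List V) : fm S (l ++ k) = fm S l + fm S k := by
  simp [fm]

theorem ph_zero : ph S 0 = 1 := rfl

theorem ph_add (x y : V) : ph S (x + y) = ph S x * ph S y := by
  unfold ph
  rw [← map_mul, AddMonoidAlgebra.single_mul_single, mul_one]

theorem ph_self (x : V) : ph S x * ph S x = 1 := by
  rw [← ph_add, ZModModule.add_self, ph_zero]

/-- **faithfulness of the Witt ring** -/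
theorem fm_eq_iff {l l' : List V} : fm S l = fm S l' ↔ WEq S l l' := by
  rw [fm_eq, fm_eq, Ideal.Quotient.eq, mem_JJ]
  constructor
  · rintro ⟨h, k, h1, h2⟩
    have h3 : cl (l ++ k) = cl (l' ++ h) := by
      rw [cl_append, cl_append]
      rw [sub_eq_sub_iff_add_eq_add] at h1
      rw [h1]; abel
    have h4 := perm_of_cl h3
    have h5 : WEq S (l ++ k) (l' ++ k) := by
      refine (WEq.of_isom (Isom.of_perm h4)).trans ?_
      exact (WEq.of_isom (Isom.refl l')).append h2
    exact h5.cancel_right
  · intro h
    exact ⟨l, l', rfl, h⟩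

theorem isom_of_fm {l l' : List V} (h : fm S l = fm S l') (hl : l.length = l'.length) :
    Isom S l l' := (fm_eq_iff.1 h).isom hl

theorem fm_of_isom {l l' : List V} (h : Isom S l l') : fm S l = fm S l' :=
  fm_eq_iff.2 (WEq.of_isom h)

theorem isotropic_of_fm {l l' : List V} (h : fm S l = fm S l') (hl : l'.length < l.length) :
    ∃ k, Isom S l (0 :: S.e :: k) := (fm_eq_iff.1 h).isotropic hl

theorem ph_e : ph S S.e = -1 := by
  have h : fm S [0, S.e] = fm S [] := by
    rw [fm_eq_iff]
    exact ⟨0, 1, Isom.refl _⟩
  rw [fm_cons, fm_cons, fm_nil, add_zero, ph_zero] at h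
  exact eq_neg_of_add_eq_zero_right h

theorem ph_bin {a b c d : V} (h : Bin S a b c d) : ph S a + ph S b = ph S c + ph S d := by
  have := fm_of_isom (Isom.head [] h)
  simpa [fm_cons, fm_nil] using this

theorem bin_of_ph {a b c d : V} (h : ph S a + ph S b = ph S c + ph S d) : Bin S a b c d := by
  have h1 : Isom S [a, b] [c, d] := by
    refine isom_of_fm ?_ (by simp)
    simpa [fm_cons, fm_nil] using h
  -- two-dimensional isometric forms
  have h2 : Dm S [a, b] c := ⟨[d], h1⟩
  obtain ⟨g, hg⟩ := h2.rep
  obtain ⟨g1, k1, k2⟩ := Rep.of_isom h1 hg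
  rcases hg.inv with ⟨h0, -, -⟩ | ⟨y, g', h3, h4, h5⟩
  · exact absurd h0 (by simp)
  · rcases h3.inv with ⟨-, rfl, rfl⟩ | ⟨_, _, h6, -, -⟩
    · obtain ⟨g2, r1, r2⟩ := Rep.first (S := S) c [d]
      have := (Rep.unique k1 r1)
      have e1 : Isom S [a + y + c] [d] := by
        rw [← h5]
        exact k2.trans (this.trans r2.symm)
      obtain ⟨g3, s1⟩ := (⟨[], e1⟩ : Dm S [a + y + c] d)
      have e2 := dm_single.1 (⟨[], e1⟩ : Dm S [a + y + c] d)
      refine ⟨?_, h4⟩
      rw [e2, show c + (a + y + c) = (a + y) + (c + c) by abel, ZModModule.add_self, add_zero]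
    · cases h6

end ETC
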