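import Pool.Agent.ETC.Witt2

/-!
Pfister forms of degree two and three over a quaternionic structure; strong linkage; the Pfister
quotients `S^x`.
-/

set_option linter.unusedSectionVars false

namespace ETC

open Pool.Agent.Helper58.PLine (QData)

variable {V Q : Type} [AddCommGroup V] [Module (ZMod 2) V] {S : QData V Q}

theorem q_eq_zero_iff {x y : V} : S.q x y = S.z ↔ (1 - ph S x) * (1 - ph S y) = 0 := by
  have e : S.q x y = S.z ↔ Bin S x y 0 (x + y) := by
    rw [bin_iff, zero_add, q_zero_left]
    exact ⟨fun h => ⟨rfl, h⟩, fun h => h.2⟩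
  rw [e]
  constructor
  · intro h
    have := ph_bin h
    rw [ph_zero, ph_add] at this
    linear_combination -this
  · intro h
    apply bin_of_ph
    rw [ph_zero, ph_add]
    linear_combination -h

/-- if `u` commutes with `x` then `(1 - x) u = 1 - x` -/
theorem one_sub_mul {x u : V} (h : S.q x u = S.z) : (1 - ph S x) * ph S u = 1 - ph S x := by
  have := q_eq_zero_iff.1 h
  linear_combination -this

theorem prod_of_q_eq {x y x' y' : V} (h : S.q x y = S.q x' y') :
    (1 - ph S x) * (1 - ph S y) = (1 - ph S x') * (1 - ph S y') := by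
  obtain ⟨t, h1, h2⟩ := S.link _ _ _ _ h
  have e1 : S.q x (y + t) = S.z := (S.add _ _ _).1 h1
  have e2 : S.q x' (y' + t) = S.z := (S.add _ _ _).1 h2
  have e3 : S.q (x + x') t = S.z := by
    have : S.q x t = S.q x' t := by rw [← h1, h, h2]
    exact S.eq_iff'.1 this
  have f1 := q_eq_zero_iff.1 e1
  have f2 := q_eq_zero_iff.1 e2
  have f3 := q_eq_zero_iff.1 e3
  rw [ph_add] at f1 f2 f3
  have g1 := ph_self (S := S) t
  have g2 := ph_self (S := S) x
  have g3 := ph_self (S := S) x'
  -- (1 - x) y = (1 - x) t, (1 - x') y' = (1 - x') t, x (1 - t) = x' (1 - t)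
  have k1 : (1 - ph S x) * ph S y = (1 - ph S x) * ph S t := by
    linear_combination (-ph S t) * f1 - (1 - ph S x) * ph S y * g1
  have k2 : (1 - ph S x') * ph S y' = (1 - ph S x') * ph S t := by
    linear_combination (-ph S t) * f2 - (1 - ph S x') * ph S y' * g1
  have k3 : ph S x * (1 - ph S t) = ph S x' * (1 - ph S t) := by
    linear_combination (ph S x) * f3 + (1 - ph S t) * ph S x' * g2
  linear_combination -k1 + k2 - k3

/-- the two-fold Pfister form -/
def rho (S : QData V Q) (x y : V) : List V := [0, x + S.e, y + S.e, x + y]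

theorem fm_rho (x y : V) : fm S (rho S x y) = (1 - ph S x) * (1 - ph S y) := by
  simp only [rho, fm_cons, fm_nil, ph_zero, ph_add, ph_e]
  ring

theorem fm_map (t : V) (l : List V) : fm S (l.map (t + ·)) = ph S t * fm S l := by
  induction l with
  | nil => simp [fm_nil]
  | cons a l ih => rw [List.map_cons, fm_cons, fm_cons, ih, ph_add]; ring

theorem map_map_self (t : V) (l : List V) : (l.map (t + ·)).map (t + ·) = l := by
  rw [List.map_map]
  conv_rhs => rw [← List.map_id l]
  apply List.map_congr_left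
  intro a _
  simp [add_add_self]

theorem Dm.translate {l : List V} {x : V} (h : Dm S l x) (t : V) :
    Dm S (l.map (t + ·)) (t + x) := by
  obtain ⟨g, hg⟩ := h
  exact ⟨g.map (t + ·), by simpa using hg.translate t⟩

theorem dm_map {l : List V} {x t : V} : Dm S (l.map (t + ·)) x ↔ Dm S l (t + x) := by
  constructor
  · intro h
    have := h.translate t
    rwa [map_map_self] at this
  · intro h
    have := h.translate t
    rwa [add_add_self] at this

theorem mem_NN_e {x u : V} : u ∈ NN S (x + S.e) ↔ S.q x u = S.z := by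
  rw [mem_NN', add_add_self']

/-- roundness of two-fold Pfister forms -/
theorem round {x y z : V} (h : Dm S (rho S x y) z) :
    (1 - ph S z) * ((1 - ph S x) * (1 - ph S y)) = 0 := by
  have h0 : rho S x y = [0, x + S.e] ++ [y + S.e, x + y] := rfl
  rw [h0] at h
  obtain ⟨u, v, h1, h2, h3⟩ := dm_append h (by simp) (by simp)
  rw [dm_pair, zero_add, zero_add, mem_NN_e] at h1
  rw [dm_pair, show y + S.e + (x + y) = (x + S.e) + (y + y) by abel, ZModModule.add_self,
    add_zero, mem_NN_e] at h2
  obtain ⟨g, hg⟩ := h3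
  have hl := hg.length
  simp only [List.length_cons, List.length_nil] at hl
  obtain ⟨w, rfl⟩ : ∃ w, g = [w] := by
    have : g.length = 1 := by omega
    exact List.length_eq_one_iff.1 this
  have e1 := fm_of_isom hg
  simp only [fm_cons, fm_nil, add_zero] at e1
  have hbin := bin_of_ph e1
  have hw : w = u + v + z := by
    rw [hbin.1, add_comm z, add_add_self']
  rw [hw] at e1
  have f1 := one_sub_mul h1
  have f2 := one_sub_mul h2
  rw [ph_add, ph_add, ph_e] at f2
  rw [ph_add, ph_add] at e1
  have gu := ph_self (S := S) u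
  have gv := ph_self (S := S) v
  have gy := ph_self (S := S) y
  have gz := ph_self (S := S) z
  -- f2 : (1 - x) * (y * (-1) * v) = 1 - x
  have f3 : (1 - ph S x) * ph S v = -((1 - ph S x) * ph S y) := by
    linear_combination (-ph S y) * f2 - (1 - ph S x) * ph S v * gy
  -- e1 : u + v = z + u v z
  have f4 : (1 - ph S x) * (ph S u + ph S v) = (1 - ph S x) * (1 - ph S y) := by
    linear_combination f1 + f3
  have f5 : (1 - ph S x) * (ph S z + ph S u * ph S v * ph S z) =
      ph S z * ((1 - ph S x) * (1 - ph S y)) := by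
    linear_combination (ph S z * ph S v) * f1 + (ph S z) * f3
  rw [← e1, f4] at f5
  linear_combination f5

theorem dm_rho_iff {x y z : V} :
    Dm S (rho S x y) z ↔ (1 - ph S x) * (1 - ph S y) * (1 - ph S z) = 0 := by
  constructor
  · intro h
    have := round h
    linear_combination this
  · intro h
    have e : fm S (rho S x y) = fm S ((rho S x y).map (z + ·)) := by
      rw [fm_map, fm_rho]
      linear_combination h
    have h1 : Isom S (rho S x y) ((rho S x y).map (z + ·)) :=
      isom_of_fm e (by simp)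
    refine Dm.of_isom h1.symm ?_
    rw [dm_map, ZModModule.add_self]
    exact ⟨_, Isom.refl _⟩

/-- values of the pure subform -/
theorem pure_value {x y c : V} (h : Dm S [x + S.e, y + S.e, x + y] (c + S.e)) :
    ∃ r, S.q x y = S.q c r := by
  obtain ⟨g, hg⟩ := h.rep
  rcases hg.inv with ⟨h0, -, -⟩ | ⟨y1, g', h1, h2, -⟩
  · exact absurd h0 (by simp)
  · have h3 := dm_pair.1 h1.dm
    rw [show y + S.e + (x + y) = (x + S.e) + (y + y) by abel, ZModModule.add_self,
      add_zero, mem_NN_e] at h3
    rw [show x + S.e + (c + S.e) = (x + c) + (S.e + S.e) by abel, ZModModule.add_self, add_zero,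
      mem_NN, show x + S.e + y1 + S.e = (x + y1) + (S.e + S.e) by abel, ZModModule.add_self,
      add_zero] at h2
    refine ⟨x + y1, ?_⟩
    have e1 : S.q x (x + y1) = S.q c (x + y1) := by
      rw [S.eq_iff', S.mem_ann_comm]
      have : S.q (x + y1) (x + c) = S.z := by rw [S.symm, h2]
      exact this
    rw [← e1]
    have e2 := q_self_add (S := S) x y1
    rw [e2, S.eq_iff]
    have : S.q x (y + S.e + y1) = S.z := h3
    rwa [show y + (y1 + S.e) = y + S.e + y1 by abel]

/-- **similar two-fold Pfister forms have the same quaternion** -/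
theorem q_eq_of_prod {x y x' y' g : V}
    (h : (1 - ph S x) * (1 - ph S y) = ph S g * ((1 - ph S x') * (1 - ph S y'))) :
    S.q x y = S.q x' y' := by
  have e1 : fm S (rho S x y) = fm S ((rho S x' y').map (g + ·)) := by
    rw [fm_map, fm_rho, fm_rho, h]
  have h1 : Isom S (rho S x y) ((rho S x' y').map (g + ·)) := isom_of_fm e1 (by simp [rho])
  have h2 : Dm S ((rho S x' y').map (g + ·)) 0 := Dm.of_isom h1 ⟨_, Isom.refl _⟩
  rw [dm_map, add_zero] at h2
  have h3 := round h2
  have e2 : fm S (rho S x y) = fm S (rho S x' y') := by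
    rw [fm_rho, fm_rho, h]
    linear_combination -h3
  have h4 : Isom S (rho S x y) (rho S x' y') := isom_of_fm e2 (by simp [rho])
  have h5 : Isom S [x + S.e, y + S.e, x + y] [x' + S.e, y' + S.e, x' + y'] := h4.cancel
  obtain ⟨r, hr⟩ := pure_value (S := S) (x := x) (y := y) (c := x')
    ⟨[y' + S.e, x' + y'], h5⟩
  rw [hr]
  have e3 := prod_of_q_eq hr
  have e4 : (1 - ph S x') * (1 - ph S r) = (1 - ph S x') * (1 - ph S y') := by
    rw [← e3, ← fm_rho, ← fm_rho, e2]
  have e5 : S.q x' (r + y') = S.z := by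
    rw [q_eq_zero_iff, ph_add]
    have g1 := ph_self (S := S) y'
    linear_combination (ph S y') * e4 + (1 - ph S x') * (-g1)
  exact (S.add _ _ _).2 e5

theorem q_eq_iff {x y x' y' : V} : S.q x y = S.q x' y' ↔
    (1 - ph S x) * (1 - ph S y) = (1 - ph S x') * (1 - ph S y') := by
  constructor
  · exact prod_of_q_eq
  · intro h
    apply q_eq_of_prod (g := 0)
    rw [h, ph_zero, one_mul]

/-- **partial associativity** -/
theorem four_term {p w a b u v : V} (h1 : S.q p w = S.z) (h2 : S.q (p + a) (w + v) = S.z)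
    (h3 : S.q (p + b) (w + u) = S.z) (h4 : S.q (p + a + b) (w + u + v) = S.z) :
    S.q a u = S.q b v := by
  rw [q_eq_zero_iff] at h1 h2 h3 h4
  simp only [ph_add] at h2 h3 h4
  have hw := ph_self (S := S) w
  have hb := ph_self (S := S) b
  have h5 : S.q v (b + u) = S.q (a + v) u := by
    apply q_eq_of_prod (g := p)
    rw [ph_add, ph_add]
    linear_combination (ph S w * ph S b) * (h3 - h4) - (ph S w * ph S b * ph S b) * (h1 - h2) -
      ((1 - ph S v) * (ph S b * ph S b - ph S b * ph S u) -
        ph S p * ph S b * ph S b * (1 - ph S u) * (1 - ph S a * ph S v)) * hw -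
      ((1 - ph S v) - ph S p * (1 - ph S u) * (1 - ph S a * ph S v)) * hb
  have h6 : S.q v (b + u) = S.q u (a + v) := by rw [h5, S.symm]
  have h7 := add_common h6 (S.symm v u)
  rw [add_add_self', add_add_self'] at h7
  rw [S.symm a, ← h7, S.symm]

/-- **strong linkage** -/
theorem strong_link {a b p s t s' t' : V} (h1 : S.q a s = S.q p s') (h2 : S.q b t = S.q p t')
    (h3 : ∃ r, S.q (a + b) r = S.q p (s' + t')) :
    ∃ x, S.q a x = S.q a s ∧ S.q b x = S.q b t := by
  obtain ⟨r, h3⟩ := h3
  obtain ⟨s0, k1, k2⟩ := S.link _ _ _ _ h1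
  obtain ⟨t0, k3, k4⟩ := S.link _ _ _ _ h2
  obtain ⟨r0, k5, k6⟩ := S.link _ _ _ _ h3
  have m1 : S.q (p + a) s0 = S.z := by
    have : S.q p s0 = S.q a s0 := by rw [← k2, ← k1, h1]
    exact S.eq_iff'.1 this
  have m2 : S.q (p + b) t0 = S.z := by
    have : S.q p t0 = S.q b t0 := by rw [← k4, ← k3, h2]
    exact S.eq_iff'.1 this
  have m3 : S.q (p + (a + b)) r0 = S.z := by
    have : S.q p r0 = S.q (a + b) r0 := by rw [← k6, ← k5, h3]
    exact S.eq_iff'.1 this
  have m4 : S.q p (r0 + s0 + t0) = S.z := by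
    have e1 : s' + s0 ∈ S.ann p := S.eq_iff.1 k2
    have e2 : t' + t0 ∈ S.ann p := S.eq_iff.1 k4
    have e3 : s' + t' + r0 ∈ S.ann p := S.eq_iff.1 k6
    have := add_mem (add_mem e1 e2) e3
    rw [show s' + s0 + (t' + t0) + (s' + t' + r0) = (r0 + s0 + t0) + (s' + s') + (t' + t') by abel,
      ZModModule.add_self, ZModModule.add_self, add_zero, add_zero] at this
    exact this
  have m5 := four_term (S := S) (p := p) (w := r0 + s0 + t0) (a := a) (b := b) (u := r0 + s0)
    (v := r0 + t0) m4
    (by rw [show r0 + s0 + t0 + (r0 + t0) = s0 + (r0 + r0) + (t0 + t0) by abel,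
          ZModModule.add_self, ZModModule.add_self, add_zero, add_zero, m1])
    (by rw [show r0 + s0 + t0 + (r0 + s0) = t0 + (r0 + r0) + (s0 + s0) by abel,
          ZModModule.add_self, ZModModule.add_self, add_zero, add_zero, m2])
    (by rw [show r0 + s0 + t0 + (r0 + s0) + (r0 + t0) =
            r0 + (r0 + r0) + (s0 + s0) + (t0 + t0) by abel,
          ZModModule.add_self, ZModModule.add_self, ZModModule.add_self, add_zero, add_zero,
          add_zero, add_assoc, m3])
  obtain ⟨y, n1, n2⟩ := S.link _ _ _ _ m5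
  refine ⟨r0 + y, ?_, ?_⟩
  · rw [k1, S.eq_iff]
    have := S.eq_iff.1 n1
    rwa [show r0 + s0 + y = r0 + y + s0 by abel] at this
  · rw [k3, S.eq_iff]
    have := S.eq_iff.1 n2
    rwa [show r0 + t0 + y = r0 + y + t0 by abel] at this

/-! ### isotropy -/

theorem isotropic_append {f g k : List V} (hf : f ≠ []) (hg : g ≠ [])
    (h : Isom S (f ++ g) (0 :: S.e :: k)) : ∃ x, Dm S g x ∧ Dm S f (x + S.e) := by
  cases f with
  | nil => exact absurd rfl hf
  | cons a r =>
    have h1 : Isom S (0 :: S.e :: k) (a :: (a + S.e) :: k) := Isom.head k (bin_hyp a).symm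
    have h2 : Isom S (r ++ g) ((a + S.e) :: k) := (h.trans h1).cancel
    have h3 : Dm S (r ++ g) (a + S.e) := ⟨k, h2⟩
    by_cases hr : r = []
    · subst hr
      refine ⟨a + S.e, h3, ?_⟩
      rw [add_add_self']
      exact ⟨[], Isom.refl _⟩
    · obtain ⟨x1, x2, ⟨g1, k1⟩, k2, k3⟩ := dm_append h3 hr hg
      refine ⟨x2, k2, ?_⟩
      refine Dm.of_isom (Isom.cons a k1.symm) ?_
      have k4 : Dm S [a, x1] (x2 + S.e) := by
        rw [dm_pair, mem_NN] at k3 ⊢
        -- with A = x1 + a + e, B = x1 + x2 + e : q (A, B) = 0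
        have e1 := q_self_add (S := S) (x1 + (a + S.e)) (x1 + x2)
        rw [k3] at e1
        rw [S.symm]
        rw [show a + x1 + S.e = x1 + (a + S.e) by abel]
        rw [show x1 + (a + S.e) + (x1 + x2) = a + (x2 + S.e) + (x1 + x1) by abel,
          ZModModule.add_self, add_zero] at e1
        exact e1
      obtain ⟨r', hr'⟩ := k4
      exact ⟨r' ++ g1, hr'.append_right g1⟩

/-- **linkage of three-fold Pfister forms with a common slot** -/
theorem pfister_link {x a b c d : V}
    (h : (1 - ph S x) * (1 - ph S a) * (1 - ph S b) = (1 - ph S x) * (1 - ph S c) * (1 - ph S d)) :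
    ∃ t, (1 - ph S x) * (1 - ph S a) * (1 - ph S b) = (1 - ph S x) * (1 - ph S a) * (1 - ph S t) ∧
      (1 - ph S x) * (1 - ph S c) * (1 - ph S d) =
        (1 - ph S x) * (1 - ph S c) * (1 - ph S t) := by
  have e1 : fm S ((rho S x a).map ((b + S.e) + ·) ++ (rho S x c).map (d + ·)) =
      fm S [a, a + x + S.e, c + S.e, c + x] := by
    rw [fm_append, fm_map, fm_map, fm_rho, fm_rho, ph_add, ph_e]
    simp only [fm_cons, fm_nil, ph_add, ph_e]
    linear_combination h
  obtain ⟨k, hk⟩ := isotropic_of_fm e1 (by simp [rho])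
  obtain ⟨z, h1, h2⟩ := isotropic_append (by simp [rho]) (by simp [rho]) hk
  rw [dm_map] at h1 h2
  rw [show b + S.e + (z + S.e) = (b + z) + (S.e + S.e) by abel, ZModModule.add_self,
    add_zero] at h2
  have f1 := round h1
  have f2 := round h2
  rw [ph_add] at f1 f2
  have gz := ph_self (S := S) z
  refine ⟨z, ?_, ?_⟩
  · linear_combination (ph S z) * f2 + ((1 - ph S x) * (1 - ph S a) * ph S b) * gz
  · linear_combination (ph S z) * f1 + ((1 - ph S x) * (1 - ph S c) * ph S d) * gz

/-! ### vanishing of three-fold symbols -/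

theorem triple_iff_comm {x y z : V} : (1 - ph S x) * (1 - ph S y) * (1 - ph S z) = 0 ↔
    ∃ u v, S.q x u = S.z ∧ S.q x v = S.z ∧ S.q (z + u) (y + v) = S.z := by
  constructor
  · intro h
    have h1 := dm_rho_iff.2 h
    have h0 : rho S x y = [0, x + S.e] ++ [y + S.e, x + y] := rfl
    rw [h0] at h1
    obtain ⟨u, v, k1, k2, k3⟩ := dm_append h1 (by simp) (by simp)
    rw [dm_pair, zero_add, zero_add, mem_NN_e] at k1
    rw [dm_pair, show y + S.e + (x + y) = (x + S.e) + (y + y) by abel, ZModModule.add_self,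
      add_zero, mem_NN_e] at k2
    rw [dm_pair, mem_NN] at k3
    refine ⟨u, u + (y + S.e + v), k1, ?_, ?_⟩
    · exact (S.ann x).add_mem k1 k2
    · rw [show y + (u + (y + S.e + v)) = (u + v + S.e) + (y + y) by abel, ZModModule.add_self,
        add_zero, add_comm z]
      exact k3
  · rintro ⟨u, v, h1, h2, h3⟩
    have f1 := one_sub_mul h1
    have f2 := one_sub_mul h2
    have f3 := q_eq_zero_iff.1 h3
    rw [ph_add, ph_add] at f3
    -- (1-x) z u = (1-x) z , (1-x) y v = (1-x) y
    linear_combination (1 - ph S x) * f3 + (ph S z) * f1 + (ph S y) * f2 -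
      (ph S z * ph S y * ph S v) * f1 - (ph S z * ph S y) * f2

theorem triple_iff_slot {x y z : V} : (1 - ph S x) * (1 - ph S y) * (1 - ph S z) = 0 ↔
    ∃ c r, S.q c z = S.z ∧ S.q x y = S.q c r := by
  constructor
  · intro h
    obtain ⟨g, hg⟩ := (dm_rho_iff.2 h).rep
    rcases hg.inv with ⟨h0, -, -⟩ | ⟨y1, g', h1, h2, -⟩
    · exact absurd h0 (by simp)
    · rw [zero_add, zero_add, mem_NN] at h2
      have h3 : Dm S [x + S.e, y + S.e, x + y] ((y1 + S.e) + S.e) := by
        rw [add_add_self']; exact h1.dm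
      obtain ⟨r, hr⟩ := pure_value h3
      exact ⟨y1 + S.e, r, by rw [S.symm]; exact h2, hr⟩
  · rintro ⟨c, r, h1, h2⟩
    rw [prod_of_q_eq h2]
    have := q_eq_zero_iff.1 h1
    linear_combination (1 - ph S r) * this

end ETC
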